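import Mathlib

/-!
# Sub-amalgams of amalgamated products

For a family `φ i : H →* G i` of injective homomorphisms and subgroups `S i ≤ G i`, `H' ≤ H` with
`φ i h ∈ S i ↔ h ∈ H'`, the natural map from the amalgam of the `S i` over `H'` to the amalgam of the
`G i` over `H` is injective.
-/

namespace Pool.Agent.H687R3

open Monoid Function

section SubAmalgam

variable {ι : Type*} {G : ι → Type*} {H : Type*} [∀ i, Group (G i)] [Group H]
  (φ : ∀ i, H →* G i) (S : ∀ i, Subgroup (G i)) (H' : Subgroup H)
  (hS : ∀ i h, φ i h ∈ S i ↔ h ∈ H')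

/-- The restricted maps. -/
def subφ (i : ι) : H' →* S i :=
  ((φ i).comp H'.subtype).codRestrict (S i) (fun h => (hS i h).2 h.2)

@[simp] lemma subφ_coe (i : ι) (h : H') : (subφ φ S H' hS i h : G i) = φ i h := rfl

/-- The natural map of amalgams. -/
def jmap : PushoutI (subφ φ S H' hS) →* PushoutI φ :=
  PushoutI.lift (fun i => (PushoutI.of i).comp (S i).subtype)
    ((PushoutI.base φ).comp H'.subtype) (by
      intro i
      ext h
      simp only [MonoidHom.comp_apply, Subgroup.coe_subtype, subφ_coe]
      exact PushoutI.of_apply_eq_base φ i h)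

@[simp] lemma jmap_of (i : ι) (s : S i) :
    jmap φ S H' hS (PushoutI.of i s) = PushoutI.of i (s : G i) := by
  simp [jmap]

@[simp] lemma jmap_base (h : H') :
    jmap φ S H' hS (PushoutI.base _ h) = PushoutI.base φ (h : H) := by
  simp [jmap]

end SubAmalgam

section WordMap

variable {ι : Type*} {M N : ι → Type*} [∀ i, Monoid (M i)] [∀ i, Monoid (N i)]
  (f : ∀ i, M i →* N i) (hf : ∀ i, Injective (f i))

/-- Map a word letterwise. -/
def wordMap (w : CoprodI.Word M) : CoprodI.Word N where
  toList := w.toList.map fun l => ⟨l.1, f l.1 l.2⟩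
  ne_one := by
    intro l hl
    simp only [List.mem_map] at hl
    obtain ⟨l', hl', rfl⟩ := hl
    intro h
    apply w.ne_one l' hl'
    apply hf l'.1
    simpa using h
  chain_ne := by
    rw [List.isChain_map]
    exact w.chain_ne

lemma wordMap_toList (w : CoprodI.Word M) :
    (wordMap f hf w).toList = w.toList.map fun l => ⟨l.1, f l.1 l.2⟩ := rfl

lemma word_prod_eq {K : Type*} [Monoid K] (g : ∀ i, N i →* K) (w : CoprodI.Word M) :
    CoprodI.lift g (wordMap f hf w).prod = CoprodI.lift (fun i => (g i).comp (f i)) w.prod := by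
  simp only [CoprodI.Word.prod, wordMap_toList, map_list_prod, List.map_map]
  congr 1

end WordMap

section SubAmalgam2

variable {ι : Type*} {G : ι → Type*} {H : Type*} [∀ i, Group (G i)] [Group H]
  (φ : ∀ i, H →* G i) (S : ∀ i, Subgroup (G i)) (H' : Subgroup H)
  (hS : ∀ i h, φ i h ∈ S i ↔ h ∈ H')

lemma jmap_word (w : CoprodI.Word (fun i => S i)) :
    jmap φ S H' hS (PushoutI.ofCoprodI w.prod) =
      PushoutI.ofCoprodI (wordMap (fun i => (S i).subtype)
        (fun i => (S i).subtype_injective) w).prod := by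
  simp only [PushoutI.ofCoprodI, word_prod_eq]
  rw [← MonoidHom.comp_apply]
  congr 1
  apply CoprodI.ext_hom
  intro i
  ext s
  simp

lemma subφ_injective (hφ : ∀ i, Injective (φ i)) (i : ι) : Injective (subφ φ S H' hS i) := by
  intro a b hab
  apply Subtype.ext
  apply hφ i
  simpa using congrArg (Subtype.val) hab

lemma letter_eq_one_of_mem_range {ι : Type*} {G : ι → Type*} {H : Type*} [∀ i, Group (G i)]
    [Group H] {φ : ∀ i, H →* G i} (d : PushoutI.NormalWord.Transversal φ) {i : ι} {g : G i}
    (hg : g ∈ d.set i) (hr : g ∈ (φ i).range) : g = 1 := by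
  obtain ⟨p, -, hp⟩ := (d.compl i).existsUnique g
  have h1 := hp ⟨⟨g, hr⟩, ⟨1, d.one_mem i⟩⟩ (by simp)
  have h2 := hp ⟨⟨1, one_mem _⟩, ⟨g, hg⟩⟩ (by simp)
  have h3 := h1.trans h2.symm
  have h4 := congrArg (fun q => (q.1 : G i)) h3
  simpa using h4

theorem jmap_injective (hφ : ∀ i, Injective (φ i)) : Injective (jmap φ S H' hS) := by
  obtain ⟨d⟩ := PushoutI.NormalWord.transversal_nonempty (subφ φ S H' hS)
    (subφ_injective φ S H' hS hφ)
  classical
  rw [injective_iff_map_eq_one]
  intro x hx
  obtain ⟨w, rfl⟩ := (PushoutI.NormalWord.equiv (d := d)).symm.surjective x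
  have hw : (PushoutI.NormalWord.equiv (d := d)).symm w = w.prod := rfl
  rw [hw] at hx ⊢
  rw [PushoutI.NormalWord.prod, map_mul, jmap_word, jmap_base] at hx
  set W := wordMap (fun i => (S i).subtype) (fun i => (S i).subtype_injective) w.toWord with hW
  have hred : PushoutI.Reduced φ W := by
    intro g hg
    rw [hW, wordMap_toList, List.mem_map] at hg
    obtain ⟨l, hl, rfl⟩ := hg
    intro hr
    obtain ⟨h, hh⟩ := hr
    simp only at hh
    have h1 : h ∈ H' := by
      rw [← hS l.1 h, hh]
      exact l.2.2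
    have h2 : l.2 ∈ (subφ φ S H' hS l.1).range := ⟨⟨h, h1⟩, Subtype.ext hh⟩
    have h3 := letter_eq_one_of_mem_range d (w.normalized l.1 l.2 hl) h2
    exact w.ne_one l hl h3
  have hmem : PushoutI.ofCoprodI W.prod ∈ (PushoutI.base φ).range := by
    refine ⟨((w.head : H))⁻¹, ?_⟩
    rw [map_inv]
    exact inv_eq_of_mul_eq_one_right hx
  have hempty := hred.eq_empty_of_mem_range hφ hmem
  have hlist : w.toList = [] := by
    have := congrArg CoprodI.Word.toList hempty
    rw [hW, wordMap_toList] at this
    simpa using this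
  have hword : w.toWord = CoprodI.Word.empty := CoprodI.Word.ext hlist
  rw [hempty] at hx
  simp only [CoprodI.Word.prod_empty, map_one, mul_one] at hx
  have hhead : (w.head : H) = 1 := PushoutI.base_injective hφ (by simpa using hx)
  have hhead' : w.head = 1 := Subtype.ext hhead
  rw [PushoutI.NormalWord.prod, hword, hhead']
  simp

end SubAmalgam2

end Pool.Agent.H687R3
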