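import Mathlib

/-!
# A criterion for not being finitely presented

If a group `R` maps to the fibre product of two copies of the wreath product `ℤ ≀ ℤ` over `ℤ` and
contains elements `u`, `y`, `w` with suitable images such that `y` commutes with all conjugates of `w`
by powers of `u`, then `R` is not finitely presented.
-/

namespace Pool.Agent.H687R3

open LaurentPolynomial

noncomputable section

/-- integral Laurent polynomials -/
abbrev P2 := LaurentPolynomial ℤ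

/-- the wreath product `ℤ ≀ ℤ` -/
@[ext] structure LL where
  /-- the lamps -/
  f : P2
  /-- the position -/
  k : ℤ

namespace LL

instance : Mul LL := ⟨fun x y => ⟨x.f + T x.k * y.f, x.k + y.k⟩⟩
instance : One LL := ⟨⟨0, 0⟩⟩
instance : Inv LL := ⟨fun x => ⟨-(T (-x.k) * x.f), -x.k⟩⟩

@[simp] lemma mul_f (x y : LL) : (x * y).f = x.f + T x.k * y.f := rfl
@[simp] lemma mul_k (x y : LL) : (x * y).k = x.k + y.k := rfl
@[simp] lemma one_f : (1 : LL).f = 0 := rfl
@[simp] lemma one_k : (1 : LL).k = 0 := rfl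
@[simp] lemma inv_f (x : LL) : (x⁻¹).f = -(T (-x.k) * x.f) := rfl
@[simp] lemma inv_k (x : LL) : (x⁻¹).k = -x.k := rfl

instance : Group LL := Group.ofLeftAxioms
  (by
    intro x y z
    apply LL.ext
    · simp only [mul_f, mul_k, T_add]
      ring
    · simp only [mul_k]
      ring)
  (by
    intro x
    apply LL.ext
    · simp
    · simp)
  (by
    intro x
    apply LL.ext
    · simp
    · simp)

end LL

/-- the shift -/
def tt : LL := ⟨0, 1⟩
/-- the lamp -/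
def lam : LL := ⟨1, 0⟩

@[simp] lemma tt_f : tt.f = 0 := rfl
@[simp] lemma tt_k : tt.k = 1 := rfl
@[simp] lemma lam_f : lam.f = 1 := rfl
@[simp] lemma lam_k : lam.k = 0 := rfl

lemma tt_zpow (n : ℤ) : tt ^ n = ⟨0, n⟩ := by
  have hnat : ∀ m : ℕ, tt ^ m = ⟨0, m⟩ := by
    intro m
    induction m with
    | zero => rfl
    | succ m ih =>
      rw [pow_succ, ih]
      apply LL.ext <;> simp
  cases n with
  | ofNat m => simpa using hnat m
  | negSucc m =>
    rw [zpow_negSucc, hnat]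
    apply LL.ext
    · simp
    · simp [Int.negSucc_eq]

/-- the central extension of the fibre product -/
@[ext] structure QQ where
  /-- first lamps -/
  W : P2
  /-- second lamps -/
  Y : P2
  /-- central part -/
  c : P2
  /-- position -/
  k : ℤ

namespace QQ

instance : Mul QQ := ⟨fun x y =>
  ⟨x.W + T x.k * y.W, x.Y + T x.k * y.Y, x.c + y.c + T x.k * y.Y * invert x.W, x.k + y.k⟩⟩
instance : One QQ := ⟨⟨0, 0, 0, 0⟩⟩
instance : Inv QQ := ⟨fun x =>
  ⟨-(T (-x.k) * x.W), -(T (-x.k) * x.Y), x.Y * invert x.W - x.c, -x.k⟩⟩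

@[simp] lemma mul_W (x y : QQ) : (x * y).W = x.W + T x.k * y.W := rfl
@[simp] lemma mul_Y (x y : QQ) : (x * y).Y = x.Y + T x.k * y.Y := rfl
@[simp] lemma mul_c (x y : QQ) : (x * y).c = x.c + y.c + T x.k * y.Y * invert x.W := rfl
@[simp] lemma mul_k (x y : QQ) : (x * y).k = x.k + y.k := rfl
@[simp] lemma one_W : (1 : QQ).W = 0 := rfl
@[simp] lemma one_Y : (1 : QQ).Y = 0 := rfl
@[simp] lemma one_c : (1 : QQ).c = 0 := rfl
@[simp] lemma one_k : (1 : QQ).k = 0 := rfl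
@[simp] lemma inv_W (x : QQ) : (x⁻¹).W = -(T (-x.k) * x.W) := rfl
@[simp] lemma inv_Y (x : QQ) : (x⁻¹).Y = -(T (-x.k) * x.Y) := rfl
@[simp] lemma inv_c (x : QQ) : (x⁻¹).c = x.Y * invert x.W - x.c := rfl
@[simp] lemma inv_k (x : QQ) : (x⁻¹).k = -x.k := rfl

lemma T_mul_T_neg (k : ℤ) : (T k * T (-k) : P2) = 1 := by
  rw [← T_add]; simp

instance : Group QQ := Group.ofLeftAxioms
  (by
    intro x y z
    apply QQ.ext
    · simp only [mul_W, mul_k, T_add]
      ring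
    · simp only [mul_Y, mul_k, T_add]
      ring
    · simp only [mul_c, mul_Y, mul_W, mul_k, T_add, map_add, map_mul, invert_T]
      have h := T_mul_T_neg x.k
      linear_combination (T y.k * z.Y * invert y.W) * h
    · simp only [mul_k]
      ring)
  (by
    intro x
    apply QQ.ext <;> simp)
  (by
    intro x
    apply QQ.ext
    · simp
    · simp
    · simp only [mul_c, inv_c, inv_k, inv_W, one_c, map_neg, map_mul, invert_T, neg_neg]
      have h := T_mul_T_neg x.k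
      linear_combination (-(x.Y * invert x.W)) * h
    · simp)

end QQ

/-- the projection -/
def PP2 : QQ →* LL × LL where
  toFun x := (⟨x.Y, x.k⟩, ⟨x.W, x.k⟩)
  map_one' := rfl
  map_mul' _ _ := rfl

@[simp] lemma PP2_apply (x : QQ) : PP2 x = (⟨x.Y, x.k⟩, ⟨x.W, x.k⟩) := rfl

/-- a normal subgroup of the extension -/
def ZZ (S : Finset ℤ) : Subgroup QQ where
  carrier := {x | x.W = 0 ∧ x.Y = 0 ∧ x.k = 0 ∧ ∀ n, n ∉ S → x.c.coeff n = 0}
  mul_mem' := by
    rintro x y ⟨hx1, hx2, hx3, hx4⟩ ⟨hy1, hy2, hy3, hy4⟩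
    refine ⟨?_, ?_, ?_, ?_⟩
    · simp [hx1, hy1]
    · simp [hx2, hy2]
    · simp [hx3, hy3]
    · intro n hn
      simp [hy2, hx4 n hn, hy4 n hn]
  one_mem' := by simp
  inv_mem' := by
    rintro x ⟨hx1, hx2, hx3, hx4⟩
    refine ⟨?_, ?_, ?_, ?_⟩
    · simp [hx1]
    · simp [hx2]
    · simp [hx3]
    · intro n hn
      simp [hx2, hx4 n hn]

instance (S : Finset ℤ) : (ZZ S).Normal := by
  constructor
  rintro x ⟨hx1, hx2, hx3, hx4⟩ g
  have hcomm : g * x = x * g := by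
    apply QQ.ext
    · simp [hx1, hx3]
    · simp [hx2, hx3]
    · simp [hx1, hx2, hx3, add_comm]
    · simp [hx3]
  rw [hcomm, mul_inv_cancel_right]
  exact ⟨hx1, hx2, hx3, hx4⟩

/-- the commutator computation -/
lemma QQ_comm (x y w : QQ) (n : ℤ) (hx : PP2 x = (⟨0, n⟩, ⟨0, n⟩)) (hy : PP2 y = (lam, 1))
    (hw : PP2 w = (1, lam)) :
    (y * (x * w * x⁻¹) * y⁻¹ * (x * w * x⁻¹)⁻¹).c = -T (-n) := by
  simp only [PP2_apply, Prod.mk.injEq, LL.ext_iff] at hx hy hw
  obtain ⟨⟨hx1, hx2⟩, ⟨hx3, -⟩⟩ := hx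
  obtain ⟨⟨hy1, hy2⟩, ⟨hy3, -⟩⟩ := hy
  obtain ⟨⟨hw1, hw2⟩, ⟨hw3, -⟩⟩ := hw
  simp only [LL.one_f, LL.one_k, lam_f, lam_k] at hx1 hx2 hx3 hy1 hy2 hy3 hw1 hw2 hw3
  simp only [QQ.mul_c, QQ.mul_W, QQ.mul_Y, QQ.mul_k, QQ.inv_c, QQ.inv_W, QQ.inv_Y, QQ.inv_k,
    hx1, hx2, hx3, hy1, hy2, hy3, hw1, hw2, hw3]
  simp

open Subgroup in
/-- The criterion for not being finitely presented. -/
theorem not_finitelyPresented {R : Type*} [Group R] (Θ : R →* LL × LL)
    (hΘ : ∀ g, (Θ g).1.k = (Θ g).2.k) (u y w : R) (hu : Θ u = (tt, tt)) (hy : Θ y = (lam, 1))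
    (hw : Θ w = (1, lam))
    (hc : ∀ n : ℤ, y * (u ^ n * w * (u ^ n)⁻¹) * y⁻¹ * (u ^ n * w * (u ^ n)⁻¹)⁻¹ = 1) :
    ¬ Group.IsFinitelyPresented R := by
  rintro ⟨n, ψ, hψ, S, hS, hSker⟩
  -- lift
  have hlift : ∀ i : Fin n, ∃ q : QQ, PP2 q = Θ (ψ (FreeGroup.of i)) := by
    intro i
    refine ⟨⟨(Θ (ψ (FreeGroup.of i))).2.f, (Θ (ψ (FreeGroup.of i))).1.f, 0,
      (Θ (ψ (FreeGroup.of i))).1.k⟩, ?_⟩
    have := hΘ (ψ (FreeGroup.of i))
    rw [PP2_apply]
    refine Prod.ext rfl ?_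
    apply LL.ext
    · rfl
    · exact this
  choose q hq using hlift
  let χ : FreeGroup (Fin n) →* QQ := FreeGroup.lift q
  have hχ : ∀ f, PP2 (χ f) = Θ (ψ f) := by
    intro f
    have : PP2.comp χ = Θ.comp ψ := by
      apply FreeGroup.ext_hom
      intro i
      simp [χ, hq]
    exact DFunLike.congr_fun this f
  obtain ⟨u', rfl⟩ := hψ u
  obtain ⟨y', rfl⟩ := hψ y
  obtain ⟨w', rfl⟩ := hψ w
  -- the finite support
  obtain ⟨S, rfl⟩ : ∃ S' : Finset (FreeGroup (Fin n)), (S' : Set (FreeGroup (Fin n))) = S :=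
    ⟨hS.toFinset, by simp⟩
  classical
  let B : Finset ℤ := S.biUnion fun e => (χ e).c.coeff.support
  have hker : ψ.ker ≤ (ZZ B).comap χ := by
    rw [← hSker]
    apply normalClosure_le_normal
    intro e he
    have he1 : ψ e = 1 := by
      have : e ∈ ψ.ker := by
        rw [← hSker]; exact subset_normalClosure he
      exact this
    have he2 := hχ e
    rw [he1, map_one, PP2_apply, Prod.mk_eq_one] at he2
    obtain ⟨he3, he4⟩ := he2
    rw [LL.ext_iff] at he3 he4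
    refine ⟨he4.1, he3.1, he3.2, ?_⟩
    intro m hm
    by_contra hne
    apply hm
    rw [Finset.mem_biUnion]
    exact ⟨e, he, by simpa using hne⟩
  obtain ⟨m, hm⟩ := Infinite.exists_notMem_finset B
  -- the relation with exponent `-m`
  have h1 : y' * (u' ^ (-m) * w' * (u' ^ (-m))⁻¹) * y'⁻¹ * (u' ^ (-m) * w' * (u' ^ (-m))⁻¹)⁻¹ ∈
      ψ.ker := by
    rw [MonoidHom.mem_ker]
    simpa using hc (-m)
  have h2 := (hker h1).2.2.2 m hm
  have h3 : (χ (y' * (u' ^ (-m) * w' * (u' ^ (-m))⁻¹) * y'⁻¹ *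
      (u' ^ (-m) * w' * (u' ^ (-m))⁻¹)⁻¹)).c = -T (-(-m)) := by
    have := QQ_comm (χ (u' ^ (-m))) (χ y') (χ w') (-m)
      (by rw [hχ, map_zpow, map_zpow, hu, Prod.pow_mk, tt_zpow]) (by rw [hχ, hy]) (by rw [hχ, hw])
    rw [← this]
    simp only [map_mul, map_inv]
  rw [h3, neg_neg] at h2
  simp at h2

end

end Pool.Agent.H687R3
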