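import Mathlib

/-!
# Identities in groups with four cyclic Baumslag-Solitar relations BS(1,8)
-/

namespace Pool.Agent.H687R3

open Subgroup

section BS

variable {Γ : Type*} [Group Γ]

lemma rel_pow {p q : Γ} (h : p⁻¹ * q * p = q ^ 8) (a : ℤ) (b : ℕ) :
    (p ^ b)⁻¹ * q ^ a * p ^ b = q ^ (a * 8 ^ b) := by
  induction b with
  | zero => simp
  | succ b ih =>
    have h1 : (p ^ (b + 1))⁻¹ * q ^ a * p ^ (b + 1) = p⁻¹ * ((p ^ b)⁻¹ * q ^ a * p ^ b) * p := by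
      group
    rw [h1, ih]
    have h2 : ∀ n : ℤ, p⁻¹ * q ^ n * p = (p⁻¹ * q * p) ^ n := by
      intro n
      have := conj_zpow (i := n) (a := p⁻¹) (b := q)
      simpa using this.symm
    rw [h2, h, ← zpow_natCast, ← zpow_mul]
    congr 1
    push_cast
    ring

lemma rel_swap {p q : Γ} (h : p⁻¹ * q * p = q ^ 8) (a : ℤ) (b : ℕ) :
    q ^ a * p ^ b = p ^ b * q ^ (a * 8 ^ b) := by
  rw [← rel_pow h a b]; group

lemma rel_swap_inv {p q : Γ} (h : p⁻¹ * q * p = q ^ 8) (a : ℤ) (b : ℕ) :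
    (p ^ b)⁻¹ * q ^ a = q ^ (a * 8 ^ b) * (p ^ b)⁻¹ := by
  rw [← rel_pow h a b]; group

/-- the seventh power of the second argument, conjugated by the first one, lies in the subgroup -/
def II (M : Subgroup Γ) (g s : Γ) : Prop := g * s ^ 7 * g⁻¹ ∈ M

variable {M : Subgroup Γ}

lemma II.zpow {g s : Γ} (h : II M g s) (n : ℤ) : g * (s ^ 7) ^ n * g⁻¹ ∈ M := by
  have : g * (s ^ 7) ^ n * g⁻¹ = (g * s ^ 7 * g⁻¹) ^ n := by rw [conj_zpow]
  rw [this]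
  exact zpow_mem h n

lemma II_mul_self {g s : Γ} : II M (g * s) s ↔ II M g s := by
  unfold II
  have : g * s * s ^ 7 * (g * s)⁻¹ = g * s ^ 7 * g⁻¹ := by group
  rw [this]

lemma II_mul_self_inv {g s : Γ} : II M (g * s⁻¹) s ↔ II M g s := by
  unfold II
  have : g * s⁻¹ * s ^ 7 * (g * s⁻¹)⁻¹ = g * s ^ 7 * g⁻¹ := by group
  rw [this]

variable {p q : Γ}

lemma b1 (h : p⁻¹ * q * p = q ^ 8) (g : Γ) :
    (g * q) * p ^ 7 * (g * q)⁻¹ = (g * p ^ 7 * g⁻¹) * (g * (q ^ 7) ^ (299593 : ℤ) * g⁻¹) := by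
  have h1 := rel_swap h 1 7
  have h2 : (g * q) * p ^ 7 * (g * q)⁻¹ = g * (q ^ (1 : ℤ) * p ^ 7) * q⁻¹ * g⁻¹ := by group
  rw [h2, h1]
  have h3 : (q ^ 7) ^ (299593 : ℤ) = q ^ (1 * 8 ^ 7 : ℤ) * q⁻¹ := by
    rw [← zpow_natCast q 7, ← zpow_mul, ← zpow_sub_one]
    norm_num
  rw [h3]; group

lemma b1' (h : p⁻¹ * q * p = q ^ 8) (g : Γ) :
    (g * q⁻¹) * p ^ 7 * (g * q⁻¹)⁻¹ = (g * p ^ 7 * g⁻¹) * (g * (q ^ 7) ^ (-299593 : ℤ) * g⁻¹) := by
  have h1 := rel_swap h (-1) 7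
  have h2 : (g * q⁻¹) * p ^ 7 * (g * q⁻¹)⁻¹ = g * (q ^ (-1 : ℤ) * p ^ 7) * q * g⁻¹ := by group
  rw [h2, h1]
  have h3 : (q ^ 7) ^ (-299593 : ℤ) = q ^ (-1 * 8 ^ 7 : ℤ) * q := by
    rw [← zpow_natCast q 7, ← zpow_mul, ← zpow_add_one]
    norm_num
  rw [h3]; group

lemma b2 (h : p⁻¹ * q * p = q ^ 8) (g : Γ) :
    (g * p⁻¹) * q ^ 7 * (g * p⁻¹)⁻¹ = g * (q ^ 7) ^ (8 : ℤ) * g⁻¹ := by
  have h1 := rel_pow h 7 1
  have h2 : (g * p⁻¹) * q ^ 7 * (g * p⁻¹)⁻¹ = g * ((p ^ 1)⁻¹ * q ^ (7 : ℤ) * p ^ 1) * g⁻¹ := by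
    group
  rw [h2, h1]
  have h3 : (q ^ 7) ^ (8 : ℤ) = q ^ (7 * 8 ^ 1 : ℤ) := by
    rw [← zpow_natCast q 7, ← zpow_mul]
    norm_num
  rw [h3]

lemma b3 (h : p⁻¹ * q * p = q ^ 8) (g : Γ) :
    (g * p) * q ^ 7 * (g * p)⁻¹ =
      (g * p ^ 7 * g⁻¹) * (g * (q ^ 7) ^ (262144 : ℤ) * g⁻¹) * (g * p ^ 7 * g⁻¹)⁻¹ := by
  have h1 := rel_pow h 7 6
  have h3 : (q ^ 7) ^ (262144 : ℤ) = (p ^ 6)⁻¹ * q ^ (7 : ℤ) * p ^ 6 := by
    rw [h1, ← zpow_natCast q 7, ← zpow_mul]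
    norm_num
  rw [h3]; group

lemma b4 (h : p⁻¹ * q * p = q ^ 8) (g : Γ) :
    ((g * p) * q ^ 7 * (g * p)⁻¹) ^ 8 = g * q ^ 7 * g⁻¹ := by
  have h1 := rel_pow h 7 1
  have h2 : g * q ^ 7 * g⁻¹ = (g * p) * ((p ^ 1)⁻¹ * q ^ (7 : ℤ) * p ^ 1) * (g * p)⁻¹ := by group
  have h3 : q ^ (7 * 8) = q ^ (7 * 8 ^ 1 : ℤ) := by
    rw [← zpow_natCast]
    norm_num
  rw [h2, h1, conj_pow, ← pow_mul, h3]

lemma II_a (h : p⁻¹ * q * p = q ^ 8) {g : Γ} (hp : II M g p) (hq : II M g q) :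
    II M (g * q) p := by
  unfold II
  rw [b1 h]
  exact mul_mem hp (hq.zpow _)

lemma II_a' (h : p⁻¹ * q * p = q ^ 8) {g : Γ} (hp : II M g p) (hq : II M g q) :
    II M (g * q⁻¹) p := by
  unfold II
  rw [b1' h]
  exact mul_mem hp (hq.zpow _)

lemma II_c (h : p⁻¹ * q * p = q ^ 8) {g : Γ} (hq : II M g q) : II M (g * p⁻¹) q := by
  unfold II
  rw [b2 h]
  exact hq.zpow _

lemma II_d (h : p⁻¹ * q * p = q ^ 8) {g : Γ} (hp : II M g p) (hq : II M g q) :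
    II M (g * p) q := by
  unfold II
  rw [b3 h]
  exact mul_mem (mul_mem hp (hq.zpow _)) (inv_mem hp)

/-- recover the stable letter -/
lemma II_r1 (h : p⁻¹ * q * p = q ^ 8) {g : Γ} (hp : II M (g * q) p) (hq : II M g q) :
    II M g p := by
  unfold II at hp
  rw [b1 h] at hp
  exact (Subgroup.mul_mem_cancel_right M (hq.zpow _)).1 hp

/-- recover the base letter -/
lemma II_r2 (h : p⁻¹ * q * p = q ^ 8) {g : Γ} (hq : II M (g * p) q) : II M g q := by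
  unfold II
  rw [← b4 h]
  exact pow_mem hq 8

/-- both letters of a vertex -/
def PP (M : Subgroup Γ) (p q g : Γ) : Prop := II M g p ∧ II M g q

lemma PP_mul_p (h : p⁻¹ * q * p = q ^ 8) {g : Γ} (hg : PP M p q g) : PP M p q (g * p) :=
  ⟨II_mul_self.2 hg.1, II_d h hg.1 hg.2⟩

lemma PP_mul_q (h : p⁻¹ * q * p = q ^ 8) {g : Γ} (hg : PP M p q g) : PP M p q (g * q) :=
  ⟨II_a h hg.1 hg.2, II_mul_self.2 hg.2⟩

lemma PP_mul_p_inv (h : p⁻¹ * q * p = q ^ 8) {g : Γ} (hg : PP M p q g) : PP M p q (g * p⁻¹) :=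
  ⟨II_mul_self_inv.2 hg.1, II_c h hg.2⟩

lemma PP_mul_q_inv (h : p⁻¹ * q * p = q ^ 8) {g : Γ} (hg : PP M p q g) : PP M p q (g * q⁻¹) :=
  ⟨II_a' h hg.1 hg.2, II_mul_self_inv.2 hg.2⟩

lemma PP_iff (h : p⁻¹ * q * p = q ^ 8) {v : Γ} (hv : v ∈ closure ({p, q} : Set Γ)) :
    ∀ g, PP M p q (g * v) ↔ PP M p q g := by
  induction hv using closure_induction with
  | mem v hv =>
    intro g
    rcases hv with rfl | hv
    · refine ⟨fun H => ?_, PP_mul_p h⟩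
      have := PP_mul_p_inv h H
      rwa [mul_inv_cancel_right] at this
    · rw [Set.mem_singleton_iff] at hv
      subst hv
      refine ⟨fun H => ?_, PP_mul_q h⟩
      have := PP_mul_q_inv h H
      rwa [mul_inv_cancel_right] at this
  | one => intro g; rw [mul_one]
  | mul a b _ _ iha ihb => intro g; rw [← mul_assoc, ihb, iha]
  | inv a _ iha =>
    intro g
    rw [← iha (g * a⁻¹), inv_mul_cancel_right]

end BS

section Main

variable {Γ : Type*} [Group Γ] (α β γ δ : Γ)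

/-- the element x -/
def ex : Γ := α * γ⁻¹
/-- the element y -/
def ey : Γ := α ^ 2 * (γ ^ 2)⁻¹
/-- the element z -/
def ez : Γ := β * δ⁻¹
/-- the element w -/
def ew : Γ := β ^ 2 * (δ ^ 2)⁻¹
/-- the element u -/
def eu : Γ := ex α γ * (ez β δ)⁻¹
/-- the element u' -/
def eu' : Γ := (ex α γ)⁻¹ * ez β δ

/-- the generators -/
def gens : Set Γ := {eu α β γ δ, eu' α β γ δ, ey α γ, ew β δ, α ^ 7, β ^ 7, γ ^ 7, δ ^ 7}

/-- the local generators -/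
def locs : Set Γ := {α ^ 7, β ^ 7, γ ^ 7, δ ^ 7}

/-- the finitely generated subgroup -/
def KK : Subgroup Γ := closure (gens α β γ δ)

/-- its normal subgroup generated by the local elements -/
def MM : Subgroup Γ := closure {g | ∃ k ∈ KK α β γ δ, ∃ s ∈ locs α β γ δ, g = k * s * k⁻¹}

lemma eu_mem : eu α β γ δ ∈ KK α β γ δ := subset_closure (by simp [gens])
lemma eu'_mem : eu' α β γ δ ∈ KK α β γ δ := subset_closure (by simp [gens])
lemma ey_mem : ey α γ ∈ KK α β γ δ := subset_closure (by simp [gens])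
lemma ew_mem : ew β δ ∈ KK α β γ δ := subset_closure (by simp [gens])

lemma locs_subset_gens : locs α β γ δ ⊆ gens α β γ δ := by
  intro s hs
  simp only [locs, gens, Set.mem_insert_iff, Set.mem_singleton_iff] at hs ⊢
  tauto

lemma MM_le_KK : MM α β γ δ ≤ KK α β γ δ := by
  rw [MM, closure_le]
  rintro _ ⟨k, hk, s, hs, rfl⟩
  exact mul_mem (mul_mem hk (subset_closure (locs_subset_gens _ _ _ _ hs))) (inv_mem hk)

lemma conj_MM {k m : Γ} (hk : k ∈ KK α β γ δ) (hm : m ∈ MM α β γ δ) :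
    k * m * k⁻¹ ∈ MM α β γ δ := by
  rw [MM] at hm
  induction hm using closure_induction with
  | mem m hm =>
    obtain ⟨l, hl, s, hs, rfl⟩ := hm
    apply Subgroup.subset_closure
    exact ⟨k * l, mul_mem hk hl, s, hs, by group⟩
  | one => simp
  | mul a b _ _ iha ihb =>
    have : k * (a * b) * k⁻¹ = (k * a * k⁻¹) * (k * b * k⁻¹) := by group
    rw [this]; exact mul_mem iha ihb
  | inv a _ iha =>
    have : k * a⁻¹ * k⁻¹ = (k * a * k⁻¹)⁻¹ := by group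
    rw [this]; exact inv_mem iha

variable {α β γ δ}

lemma II_left {k g s : Γ} (hk : k ∈ KK α β γ δ) :
    II (MM α β γ δ) (k * g) s ↔ II (MM α β γ δ) g s := by
  unfold II
  have h1 : k * g * s ^ 7 * (k * g)⁻¹ = k * (g * s ^ 7 * g⁻¹) * k⁻¹ := by group
  constructor
  · intro H
    have h2 : g * s ^ 7 * g⁻¹ = k⁻¹ * (k * g * s ^ 7 * (k * g)⁻¹) * k⁻¹⁻¹ := by group
    rw [h2]
    exact conj_MM α β γ δ (inv_mem hk) H
  · intro H
    rw [h1]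
    exact conj_MM α β γ δ hk H

lemma II_locs {s : Γ} (hs : s ^ 7 ∈ locs α β γ δ) : II (MM α β γ δ) 1 s := by
  unfold II
  apply Subgroup.subset_closure
  exact ⟨1, one_mem _, s ^ 7, hs, rfl⟩

lemma II1α : II (MM α β γ δ) 1 α := II_locs (by simp [locs])
lemma II1β : II (MM α β γ δ) 1 β := II_locs (by simp [locs])
lemma II1γ : II (MM α β γ δ) 1 γ := II_locs (by simp [locs])
lemma II1δ : II (MM α β γ δ) 1 δ := II_locs (by simp [locs])

section rels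

variable (h1 : α⁻¹ * β * α = β ^ 8) (h2 : β⁻¹ * γ * β = γ ^ 8) (h3 : γ⁻¹ * δ * γ = δ ^ 8)
  (h4 : δ⁻¹ * α * δ = α ^ 8)

include h1 in
lemma PPαβ {v : Γ} (hv : v ∈ closure ({α, β} : Set Γ)) : PP (MM α β γ δ) α β v := by
  have := (PP_iff (M := MM α β γ δ) h1 hv 1).2 ⟨II1α, II1β⟩
  rwa [one_mul] at this

include h2 in
lemma PPβγ {v : Γ} (hv : v ∈ closure ({β, γ} : Set Γ)) : PP (MM α β γ δ) β γ v := by
  have := (PP_iff (M := MM α β γ δ) h2 hv 1).2 ⟨II1β, II1γ⟩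
  rwa [one_mul] at this

include h3 in
lemma PPγδ {v : Γ} (hv : v ∈ closure ({γ, δ} : Set Γ)) : PP (MM α β γ δ) γ δ v := by
  have := (PP_iff (M := MM α β γ δ) h3 hv 1).2 ⟨II1γ, II1δ⟩
  rwa [one_mul] at this

include h4 in
lemma PPδα {v : Γ} (hv : v ∈ closure ({δ, α} : Set Γ)) : PP (MM α β γ δ) δ α v := by
  have := (PP_iff (M := MM α β γ δ) h4 hv 1).2 ⟨II1δ, II1α⟩
  rwa [one_mul] at this

end rels

lemma mem_cl_left {p q : Γ} : p ∈ closure ({p, q} : Set Γ) := subset_closure (by simp)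
lemma mem_cl_right {p q : Γ} : q ∈ closure ({p, q} : Set Γ) := subset_closure (by simp)

section rels2

variable (h1 : α⁻¹ * β * α = β ^ 8) (h2 : β⁻¹ * γ * β = γ ^ 8) (h3 : γ⁻¹ * δ * γ = δ ^ 8)
  (h4 : δ⁻¹ * α * δ = α ^ 8)

/-- uz = x -/
lemma eu_mul_ez : eu α β γ δ * ez β δ = ex α γ := by simp [eu]

/-- u' x... : x u' = z -/
lemma ex_mul_eu' : ex α γ * eu' α β γ δ = ez β δ := by simp [eu']

include h2 h3 h4 in
lemma up_cd : II (MM α β γ δ) (ex α γ) γ ∧ II (MM α β γ δ) (ex α γ) δ := by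
  -- c-edge
  have e1 : II (MM α β γ δ) (ex α γ * δ) γ := by
    have : ex α γ * δ = eu α β γ δ * β := by simp [eu, ez, mul_assoc]
    rw [this, II_left (eu_mem α β γ δ)]
    exact (PPβγ h2 mem_cl_left).2
  have e2 : II (MM α β γ δ) (ex α γ * γ) δ := by
    have : ex α γ * γ = α := by simp [ex]
    rw [this]
    exact (PPδα h4 mem_cl_right).1
  have e3 := II_r2 h3 e2
  exact ⟨II_r1 h3 e1 e3, e3⟩

lemma II_ez_iff {s : Γ} : II (MM α β γ δ) (ez β δ) s ↔ II (MM α β γ δ) (ex α γ) s := by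
  rw [← eu_mul_ez (α := α) (β := β) (γ := γ) (δ := δ), II_left (eu_mem α β γ δ)]

lemma II_ez_mul_iff {s g : Γ} :
    II (MM α β γ δ) (ez β δ * g) s ↔ II (MM α β γ δ) (ex α γ * g) s := by
  rw [← eu_mul_ez (α := α) (β := β) (γ := γ) (δ := δ), mul_assoc, II_left (eu_mem α β γ δ)]

lemma II_ex_inv_mul_iff {s g : Γ} :
    II (MM α β γ δ) ((ex α γ)⁻¹ * g) s ↔ II (MM α β γ δ) ((ez β δ)⁻¹ * g) s := by
  have : (ex α γ)⁻¹ * g = eu' α β γ δ * ((ez β δ)⁻¹ * g) := by simp [eu', mul_assoc]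
  rw [this, II_left (eu'_mem α β γ δ)]

lemma II_ex_inv_iff {s : Γ} :
    II (MM α β γ δ) (ex α γ)⁻¹ s ↔ II (MM α β γ δ) (ez β δ)⁻¹ s := by
  have := II_ex_inv_mul_iff (α := α) (β := β) (γ := γ) (δ := δ) (s := s) (g := 1)
  simpa using this

include h1 h2 h3 h4 in
/-- all four letters at x -/
lemma up_all : II (MM α β γ δ) (ex α γ) α ∧ II (MM α β γ δ) (ex α γ) β ∧
    II (MM α β γ δ) (ex α γ) γ ∧ II (MM α β γ δ) (ex α γ) δ := by
  obtain ⟨hc, hd⟩ := up_cd (α := α) (β := β) (γ := γ) (δ := δ) h2 h3 h4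
  refine ⟨?_, ?_, hc, hd⟩
  · have e1 : II (MM α β γ δ) (ez β δ * δ) α := by
      have : ez β δ * δ = β := by simp [ez]
      rw [this]
      exact (PPαβ h1 mem_cl_right).1
    exact II_ez_iff.1 (II_r2 h4 e1)
  · have e1 : II (MM α β γ δ) (ex α γ * γ) β := by
      have : ex α γ * γ = α := by simp [ex]
      rw [this]
      exact (PPαβ h1 mem_cl_left).2
    exact II_r1 h2 e1 hc

include h1 h2 h3 h4 in
/-- all four letters at the inverse of x -/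
lemma down_all : II (MM α β γ δ) (ex α γ)⁻¹ α ∧ II (MM α β γ δ) (ex α γ)⁻¹ β ∧
    II (MM α β γ δ) (ex α γ)⁻¹ γ ∧ II (MM α β γ δ) (ex α γ)⁻¹ δ := by
  have hb : II (MM α β γ δ) (ex α γ)⁻¹ β := by
    have e1 : II (MM α β γ δ) ((ex α γ)⁻¹ * α) β := by
      have : (ex α γ)⁻¹ * α = γ := by simp [ex]
      rw [this]
      exact (PPβγ h2 mem_cl_right).1
    exact II_r2 h1 e1
  have ha : II (MM α β γ δ) (ex α γ)⁻¹ α := by
    have e1 : II (MM α β γ δ) ((ex α γ)⁻¹ * β) α := by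
      rw [II_ex_inv_mul_iff]
      have : (ez β δ)⁻¹ * β = δ := by simp [ez]
      rw [this]
      exact (PPδα h4 mem_cl_left).2
    exact II_r1 h1 e1 hb
  have hc : II (MM α β γ δ) (ex α γ)⁻¹ γ := by
    rw [II_ex_inv_iff]
    have e1 : II (MM α β γ δ) ((ez β δ)⁻¹ * β) γ := by
      have : (ez β δ)⁻¹ * β = δ := by simp [ez]
      rw [this]
      exact (PPγδ h3 mem_cl_right).1
    exact II_r2 h2 e1
  have hd : II (MM α β γ δ) (ex α γ)⁻¹ δ := by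
    have e1 : II (MM α β γ δ) ((ex α γ)⁻¹ * α) δ := by
      have : (ex α γ)⁻¹ * α = γ := by simp [ex]
      rw [this]
      exact (PPγδ h3 mem_cl_left).2
    exact II_r1 h4 e1 ha
  exact ⟨ha, hb, hc, hd⟩

end rels2

end Main

end Pool.Agent.H687R3
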