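import Mathlib
import Pool.Agent.H687R3.Ident

/-!
# Commutators modulo the local elements
-/

namespace Pool.Agent.H687R3

open Subgroup

section Main

variable {Γ : Type*} [Group Γ] {α β γ δ : Γ}

lemma pw {M : Subgroup Γ} {g s : Γ} (h : II M g s) (n m : ℤ) (hm : m = 7 * n) :
    g * s ^ m * g⁻¹ ∈ M := by
  have := h.zpow n
  rw [← zpow_natCast s 7, ← zpow_mul] at this
  rw [hm]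
  exact_mod_cast this

/-- a product of three local elements and one more -/
lemma prod4 {M : Subgroup Γ} {g s1 s2 s3 h t : Γ} (i1 : II M g s1) (i2 : II M g s2)
    (i3 : II M g s3) (i4 : II M h t) (n1 n2 n3 n4 m1 m2 m3 m4 : ℤ) (e1 : m1 = 7 * n1)
    (e2 : m2 = 7 * n2) (e3 : m3 = 7 * n3) (e4 : m4 = 7 * n4) :
    g * (s1 ^ m1 * s2 ^ m2 * s3 ^ m3) * g⁻¹ * (h * t ^ m4 * h⁻¹) ∈ M := by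
  have : g * (s1 ^ m1 * s2 ^ m2 * s3 ^ m3) * g⁻¹ * (h * t ^ m4 * h⁻¹) =
    (g * s1 ^ m1 * g⁻¹) * (g * s2 ^ m2 * g⁻¹) * (g * s3 ^ m3 * g⁻¹) * (h * t ^ m4 * h⁻¹) := by
    group
  rw [this]
  exact mul_mem (mul_mem (mul_mem (pw i1 n1 m1 e1) (pw i2 n2 m2 e2)) (pw i3 n3 m3 e3))
    (pw i4 n4 m4 e4)

section rels

variable (h1 : α⁻¹ * β * α = β ^ 8) (h2 : β⁻¹ * γ * β = γ ^ 8) (h3 : γ⁻¹ * δ * γ = δ ^ 8)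
  (h4 : δ⁻¹ * α * δ = α ^ 8)

include h1 h2 h3 h4 in
lemma c1 : ez β δ * ex α γ * (ez β δ)⁻¹ * (ex α γ)⁻¹ =
    (β * α) * (α ^ (7 : ℤ) * δ ^ (7 : ℤ) * γ ^ (7 : ℤ)) * (β * α)⁻¹ *
      (α * β ^ (7 : ℤ) * α⁻¹) := by
  have r1 : δ⁻¹ * α = α ^ (8 : ℤ) * δ⁻¹ := by simpa using rel_swap_inv h4 1 1
  have r2 : γ⁻¹ * δ = δ ^ (8 : ℤ) * γ⁻¹ := by simpa using rel_swap_inv h3 1 1
  have r3 : β⁻¹ * γ = γ ^ (8 : ℤ) * β⁻¹ := by simpa using rel_swap_inv h2 1 1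
  have r4 : β * α = α * β ^ (8 : ℤ) := by simpa using rel_swap h1 1 1
  calc ez β δ * ex α γ * (ez β δ)⁻¹ * (ex α γ)⁻¹
      = β * (δ⁻¹ * α) * (γ⁻¹ * δ) * (β⁻¹ * γ) * α⁻¹ := by simp only [ez, ex]; group
    _ = β * (α ^ (8 : ℤ) * δ⁻¹) * (δ ^ (8 : ℤ) * γ⁻¹) * (γ ^ (8 : ℤ) * β⁻¹) * α⁻¹ := by
        rw [r1, r2, r3]
    _ = (β * α) * (α ^ (7 : ℤ) * δ ^ (7 : ℤ) * γ ^ (7 : ℤ)) * (β * α)⁻¹ *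
          ((β * α) * β⁻¹ * α⁻¹) := by group
    _ = (β * α) * (α ^ (7 : ℤ) * δ ^ (7 : ℤ) * γ ^ (7 : ℤ)) * (β * α)⁻¹ *
          (α * β ^ (7 : ℤ) * α⁻¹) := by
        congr 1
        rw [r4]; group

include h1 h2 h3 h4 in
lemma c2 : (ez β δ)⁻¹ * (ex α γ)⁻¹ * ez β δ * ex α γ =
    (δ * γ) * (γ ^ (7 : ℤ) * β ^ (7 : ℤ) * α ^ (7 : ℤ)) * (δ * γ)⁻¹ *
      (γ * δ ^ (7 : ℤ) * γ⁻¹) := by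
  have r1 : β⁻¹ * γ = γ ^ (8 : ℤ) * β⁻¹ := by simpa using rel_swap_inv h2 1 1
  have r2 : α⁻¹ * β = β ^ (8 : ℤ) * α⁻¹ := by simpa using rel_swap_inv h1 1 1
  have r3 : δ⁻¹ * α = α ^ (8 : ℤ) * δ⁻¹ := by simpa using rel_swap_inv h4 1 1
  have r4 : δ * γ = γ * δ ^ (8 : ℤ) := by simpa using rel_swap h3 1 1
  calc (ez β δ)⁻¹ * (ex α γ)⁻¹ * ez β δ * ex α γ
      = δ * (β⁻¹ * γ) * (α⁻¹ * β) * (δ⁻¹ * α) * γ⁻¹ := by simp only [ez, ex]; group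
    _ = δ * (γ ^ (8 : ℤ) * β⁻¹) * (β ^ (8 : ℤ) * α⁻¹) * (α ^ (8 : ℤ) * δ⁻¹) * γ⁻¹ := by
        rw [r1, r2, r3]
    _ = (δ * γ) * (γ ^ (7 : ℤ) * β ^ (7 : ℤ) * α ^ (7 : ℤ)) * (δ * γ)⁻¹ *
          ((δ * γ) * δ⁻¹ * γ⁻¹) := by group
    _ = _ := by
        congr 1
        rw [r4]; group

include h1 h2 h3 h4 in
lemma c3 : ez β δ * ey α γ * (ez β δ)⁻¹ * (ey α γ)⁻¹ =
    (β * α ^ 2) * (α ^ (14 : ℤ) * δ ^ (63 : ℤ) * γ ^ (14 : ℤ)) * (β * α ^ 2)⁻¹ *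
      (α ^ 2 * β ^ (63 : ℤ) * (α ^ 2)⁻¹) := by
  have r1 : δ⁻¹ * α ^ (2 : ℤ) = α ^ (16 : ℤ) * δ⁻¹ := by
    simpa using rel_swap_inv h4 2 1
  have r2 : (γ ^ 2)⁻¹ * δ = δ ^ (64 : ℤ) * (γ ^ 2)⁻¹ := by simpa using rel_swap_inv h3 1 2
  have r3 : β⁻¹ * γ ^ (2 : ℤ) = γ ^ (16 : ℤ) * β⁻¹ := by simpa using rel_swap_inv h2 2 1
  have r4 : β * α ^ 2 = α ^ 2 * β ^ (64 : ℤ) := by simpa using rel_swap h1 1 2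
  calc ez β δ * ey α γ * (ez β δ)⁻¹ * (ey α γ)⁻¹
      = β * (δ⁻¹ * α ^ (2 : ℤ)) * ((γ ^ 2)⁻¹ * δ) * (β⁻¹ * γ ^ (2 : ℤ)) * (α ^ 2)⁻¹ := by
        simp only [ez, ey]; group
    _ = β * (α ^ (16 : ℤ) * δ⁻¹) * (δ ^ (64 : ℤ) * (γ ^ 2)⁻¹) * (γ ^ (16 : ℤ) * β⁻¹) *
          (α ^ 2)⁻¹ := by
        rw [r1, r2, r3]
    _ = (β * α ^ 2) * (α ^ (14 : ℤ) * δ ^ (63 : ℤ) * γ ^ (14 : ℤ)) * (β * α ^ 2)⁻¹ *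
          ((β * α ^ 2) * β⁻¹ * (α ^ 2)⁻¹) := by group
    _ = _ := by
        congr 1
        rw [r4]; group

include h1 h2 h3 h4 in
lemma c4 : (ez β δ)⁻¹ * ey α γ * ez β δ * (ey α γ)⁻¹ =
    (δ * α ^ 2) * (β ^ (-63 : ℤ) * γ ^ (-14 : ℤ) * δ ^ (-63 : ℤ)) * (δ * α ^ 2)⁻¹ *
      (δ * α ^ (-14 : ℤ) * δ⁻¹) := by
  have r1 : β ^ (-1 : ℤ) * α ^ 2 = α ^ 2 * β ^ (-64 : ℤ) := by simpa using rel_swap h1 (-1) 2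
  have r2 : γ ^ (-2 : ℤ) * β = β * γ ^ (-16 : ℤ) := by simpa using rel_swap h2 (-2) 1
  have r3 : δ ^ (-1 : ℤ) * γ ^ 2 = γ ^ 2 * δ ^ (-64 : ℤ) := by simpa using rel_swap h3 (-1) 2
  have r4 : δ⁻¹ * α ^ (-2 : ℤ) = α ^ (-16 : ℤ) * δ⁻¹ := by simpa using rel_swap_inv h4 (-2) 1
  calc (ez β δ)⁻¹ * ey α γ * ez β δ * (ey α γ)⁻¹
      = δ * (β ^ (-1 : ℤ) * α ^ 2) * (γ ^ (-2 : ℤ) * β) * (δ ^ (-1 : ℤ) * γ ^ 2) *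
          (α ^ 2)⁻¹ := by simp only [ez, ey]; group
    _ = δ * (α ^ 2 * β ^ (-64 : ℤ)) * (β * γ ^ (-16 : ℤ)) * (γ ^ 2 * δ ^ (-64 : ℤ)) *
          (α ^ 2)⁻¹ := by rw [r1, r2, r3]
    _ = (δ * α ^ 2) * (β ^ (-63 : ℤ) * γ ^ (-14 : ℤ) * δ ^ (-63 : ℤ)) * (δ * α ^ 2)⁻¹ *
          (δ * α ^ 2 * (δ⁻¹ * α ^ (-2 : ℤ))) := by group
    _ = _ := by
        congr 1
        rw [r4]; group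

include h1 h2 h3 h4 in
lemma c5 : ex α γ * ew β δ * (ex α γ)⁻¹ * (ew β δ)⁻¹ =
    (α * β ^ 2) * (γ ^ (-63 : ℤ) * δ ^ (-14 : ℤ) * α ^ (-63 : ℤ)) * (α * β ^ 2)⁻¹ *
      (α * β ^ (-14 : ℤ) * α⁻¹) := by
  have r1 : γ ^ (-1 : ℤ) * β ^ 2 = β ^ 2 * γ ^ (-64 : ℤ) := by simpa using rel_swap h2 (-1) 2
  have r2 : δ ^ (-2 : ℤ) * γ = γ * δ ^ (-16 : ℤ) := by simpa using rel_swap h3 (-2) 1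
  have r3 : α ^ (-1 : ℤ) * δ ^ 2 = δ ^ 2 * α ^ (-64 : ℤ) := by simpa using rel_swap h4 (-1) 2
  have r4 : α⁻¹ * β ^ (-2 : ℤ) = β ^ (-16 : ℤ) * α⁻¹ := by simpa using rel_swap_inv h1 (-2) 1
  calc ex α γ * ew β δ * (ex α γ)⁻¹ * (ew β δ)⁻¹
      = α * (γ ^ (-1 : ℤ) * β ^ 2) * (δ ^ (-2 : ℤ) * γ) * (α ^ (-1 : ℤ) * δ ^ 2) *
          (β ^ 2)⁻¹ := by simp only [ew, ex]; group
    _ = α * (β ^ 2 * γ ^ (-64 : ℤ)) * (γ * δ ^ (-16 : ℤ)) * (δ ^ 2 * α ^ (-64 : ℤ)) *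
          (β ^ 2)⁻¹ := by rw [r1, r2, r3]
    _ = (α * β ^ 2) * (γ ^ (-63 : ℤ) * δ ^ (-14 : ℤ) * α ^ (-63 : ℤ)) * (α * β ^ 2)⁻¹ *
          (α * β ^ 2 * (α⁻¹ * β ^ (-2 : ℤ))) := by group
    _ = _ := by
        congr 1
        rw [r4]; group

include h1 h2 h3 h4 in
lemma c6 : (ex α γ)⁻¹ * ew β δ * ex α γ * (ew β δ)⁻¹ =
    (γ * β ^ 2) * (β ^ (14 : ℤ) * α ^ (63 : ℤ) * δ ^ (14 : ℤ)) * (γ * β ^ 2)⁻¹ *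
      (β ^ 2 * γ ^ (63 : ℤ) * (β ^ 2)⁻¹) := by
  have r1 : α⁻¹ * β ^ (2 : ℤ) = β ^ (16 : ℤ) * α⁻¹ := by simpa using rel_swap_inv h1 2 1
  have r2 : (δ ^ 2)⁻¹ * α = α ^ (64 : ℤ) * (δ ^ 2)⁻¹ := by simpa using rel_swap_inv h4 1 2
  have r3 : γ⁻¹ * δ ^ (2 : ℤ) = δ ^ (16 : ℤ) * γ⁻¹ := by simpa using rel_swap_inv h3 2 1
  have r4 : γ * β ^ 2 = β ^ 2 * γ ^ (64 : ℤ) := by simpa using rel_swap h2 1 2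
  calc (ex α γ)⁻¹ * ew β δ * ex α γ * (ew β δ)⁻¹
      = γ * (α⁻¹ * β ^ (2 : ℤ)) * ((δ ^ 2)⁻¹ * α) * (γ⁻¹ * δ ^ (2 : ℤ)) * (β ^ 2)⁻¹ := by
        simp only [ew, ex]; group
    _ = γ * (β ^ (16 : ℤ) * α⁻¹) * (α ^ (64 : ℤ) * (δ ^ 2)⁻¹) * (δ ^ (16 : ℤ) * γ⁻¹) *
          (β ^ 2)⁻¹ := by rw [r1, r2, r3]
    _ = (γ * β ^ 2) * (β ^ (14 : ℤ) * α ^ (63 : ℤ) * δ ^ (14 : ℤ)) * (γ * β ^ 2)⁻¹ *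
          ((γ * β ^ 2) * γ⁻¹ * (β ^ 2)⁻¹) := by group
    _ = _ := by
        congr 1
        rw [r4]; group

include h1 h2 h3 h4 in
lemma c7 : ey α γ * ew β δ * (ey α γ)⁻¹ * (ew β δ)⁻¹ =
    (α ^ 2 * β ^ 2) * (γ ^ (-126 : ℤ) * δ ^ (-126 : ℤ) * α ^ (-126 : ℤ)) * (α ^ 2 * β ^ 2)⁻¹ *
      (α ^ 2 * β ^ (-126 : ℤ) * (α ^ 2)⁻¹) := by
  have r1 : γ ^ (-2 : ℤ) * β ^ 2 = β ^ 2 * γ ^ (-128 : ℤ) := by simpa using rel_swap h2 (-2) 2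
  have r2 : δ ^ (-2 : ℤ) * γ ^ 2 = γ ^ 2 * δ ^ (-128 : ℤ) := by simpa using rel_swap h3 (-2) 2
  have r3 : α ^ (-2 : ℤ) * δ ^ 2 = δ ^ 2 * α ^ (-128 : ℤ) := by simpa using rel_swap h4 (-2) 2
  have r4 : (α ^ 2)⁻¹ * β ^ (-2 : ℤ) = β ^ (-128 : ℤ) * (α ^ 2)⁻¹ := by
    simpa using rel_swap_inv h1 (-2) 2
  calc ey α γ * ew β δ * (ey α γ)⁻¹ * (ew β δ)⁻¹
      = α ^ 2 * (γ ^ (-2 : ℤ) * β ^ 2) * (δ ^ (-2 : ℤ) * γ ^ 2) * (α ^ (-2 : ℤ) * δ ^ 2) *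
          (β ^ 2)⁻¹ := by simp only [ew, ey]; group
    _ = α ^ 2 * (β ^ 2 * γ ^ (-128 : ℤ)) * (γ ^ 2 * δ ^ (-128 : ℤ)) * (δ ^ 2 * α ^ (-128 : ℤ)) *
          (β ^ 2)⁻¹ := by rw [r1, r2, r3]
    _ = (α ^ 2 * β ^ 2) * (γ ^ (-126 : ℤ) * δ ^ (-126 : ℤ) * α ^ (-126 : ℤ)) *
          (α ^ 2 * β ^ 2)⁻¹ * (α ^ 2 * β ^ 2 * ((α ^ 2)⁻¹ * β ^ (-2 : ℤ))) := by group
    _ = _ := by
        congr 1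
        rw [r4]; group

end rels

end Main

end Pool.Agent.H687R3
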