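import Mathlib
import Pool.Agent.H687R3.Ident2

/-!
# The commutation relations modulo the local elements
-/

namespace Pool.Agent.H687R3

open Subgroup

section Quot

/-- an abstract lemma on commuting elements modulo a subgroup -/
lemma comm_quot {Γ : Type*} [Group Γ] (M : Subgroup Γ) (x y z w : Γ)
    (hx : x ∈ normalizer (M : Set Γ)) (hy : y ∈ normalizer (M : Set Γ))
    (hz : z ∈ normalizer (M : Set Γ))
    (hw : w ∈ normalizer (M : Set Γ)) (hzx : z * x * z⁻¹ * x⁻¹ ∈ M) (hxw : x * w * x⁻¹ * w⁻¹ ∈ M)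
    (hyw : y * w * y⁻¹ * w⁻¹ ∈ M) (hzy : z * y * z⁻¹ * y⁻¹ ∈ M) (n : ℤ) :
    y * ((x * z⁻¹) ^ n * w * ((x * z⁻¹) ^ n)⁻¹) * y⁻¹ *
      ((x * z⁻¹) ^ n * w * ((x * z⁻¹) ^ n)⁻¹)⁻¹ ∈ M := by
  set N := normalizer (M : Set Γ) with hN
  let X : N := ⟨x, hx⟩
  let Y : N := ⟨y, hy⟩
  let Z : N := ⟨z, hz⟩
  let W : N := ⟨w, hw⟩
  let MN : Subgroup N := M.subgroupOf N
  haveI : MN.Normal := Subgroup.normal_in_normalizer
  let π : N →* N ⧸ MN := QuotientGroup.mk' MN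
  have key : ∀ a b : N, (a * b * a⁻¹ * b⁻¹ : N) ∈ MN → Commute (π a) (π b) := by
    intro a b hab
    have h1 : π (a * b * a⁻¹ * b⁻¹) = 1 := (QuotientGroup.eq_one_iff _).2 hab
    simp only [map_mul, map_inv] at h1
    have h2 : π a * π b = π b * π a := by
      have h3 := mul_inv_eq_one.1 h1
      exact mul_inv_eq_iff_eq_mul.1 h3
    exact h2
  have kzx : Commute (π Z) (π X) := key _ _ (by
    rw [mem_subgroupOf]; exact hzx)
  have kxw : Commute (π X) (π W) := key _ _ (by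
    rw [mem_subgroupOf]; exact hxw)
  have kyw : Commute (π Y) (π W) := key _ _ (by
    rw [mem_subgroupOf]; exact hyw)
  have kzy : Commute (π Z) (π Y) := key _ _ (by
    rw [mem_subgroupOf]; exact hzy)
  have hU : (π X * (π Z)⁻¹) ^ n = (π Z) ^ (-n) * (π X) ^ n := by
    rw [(kzx.symm.inv_right).mul_zpow, inv_zpow', (kzx.symm.zpow_zpow n (-n)).eq]
  have hconj : (π X * (π Z)⁻¹) ^ n * π W * ((π X * (π Z)⁻¹) ^ n)⁻¹ =
      (π Z) ^ (-n) * π W * ((π Z) ^ (-n))⁻¹ := by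
    rw [hU]
    have := (kxw.zpow_left n).eq
    calc (π Z) ^ (-n) * (π X) ^ n * π W * ((π Z) ^ (-n) * (π X) ^ n)⁻¹
        = (π Z) ^ (-n) * ((π X) ^ n * π W) * ((π X) ^ n)⁻¹ * ((π Z) ^ (-n))⁻¹ := by group
      _ = (π Z) ^ (-n) * (π W * (π X) ^ n) * ((π X) ^ n)⁻¹ * ((π Z) ^ (-n))⁻¹ := by rw [this]
      _ = _ := by group
  have hfin : Commute (π Y) ((π X * (π Z)⁻¹) ^ n * π W * ((π X * (π Z)⁻¹) ^ n)⁻¹) := by
    rw [hconj]
    have k1 : Commute (π Y) ((π Z) ^ (-n)) := (kzy.zpow_left _).symm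
    exact (k1.mul_right kyw).mul_right k1.inv_right
  set V : N := (X * Z⁻¹) ^ n * W * ((X * Z⁻¹) ^ n)⁻¹ with hV
  have hπV : π V = (π X * (π Z)⁻¹) ^ n * π W * ((π X * (π Z)⁻¹) ^ n)⁻¹ := by
    simp [hV]
  rw [← hπV] at hfin
  have h1 : π (Y * V * Y⁻¹ * V⁻¹) = 1 := by
    simp only [map_mul, map_inv]
    rw [hfin.eq]; group
  have h2 : (Y * V * Y⁻¹ * V⁻¹ : N) ∈ MN := (QuotientGroup.eq_one_iff _).1 h1
  rw [mem_subgroupOf] at h2
  simpa [hV] using h2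

end Quot

section Main

variable {Γ : Type*} [Group Γ] {α β γ δ : Γ}

/-- all four letters -/
def All (M : Subgroup Γ) (α β γ δ g : Γ) : Prop :=
  II M g α ∧ II M g β ∧ II M g γ ∧ II M g δ

section rels

variable (h1 : α⁻¹ * β * α = β ^ 8) (h2 : β⁻¹ * γ * β = γ ^ 8) (h3 : γ⁻¹ * δ * γ = δ ^ 8)
  (h4 : δ⁻¹ * α * δ = α ^ 8)

include h1 in
lemma All.αβ {M : Subgroup Γ} {g : Γ} (hg : All M α β γ δ g) {v : Γ}
    (hv : v ∈ closure ({α, β} : Set Γ)) : PP M α β (g * v) :=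
  (PP_iff h1 hv g).2 ⟨hg.1, hg.2.1⟩

include h2 in
lemma All.βγ {M : Subgroup Γ} {g : Γ} (hg : All M α β γ δ g) {v : Γ}
    (hv : v ∈ closure ({β, γ} : Set Γ)) : PP M β γ (g * v) :=
  (PP_iff h2 hv g).2 ⟨hg.2.1, hg.2.2.1⟩

include h3 in
lemma All.γδ {M : Subgroup Γ} {g : Γ} (hg : All M α β γ δ g) {v : Γ}
    (hv : v ∈ closure ({γ, δ} : Set Γ)) : PP M γ δ (g * v) :=
  (PP_iff h3 hv g).2 ⟨hg.2.2.1, hg.2.2.2⟩

include h4 in
lemma All.δα {M : Subgroup Γ} {g : Γ} (hg : All M α β γ δ g) {v : Γ}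
    (hv : v ∈ closure ({δ, α} : Set Γ)) : PP M δ α (g * v) :=
  (PP_iff h4 hv g).2 ⟨hg.2.2.2, hg.1⟩

include h1 h2 h3 h4 in
lemma all_x : All (MM α β γ δ) α β γ δ (ex α γ) := up_all h1 h2 h3 h4

include h1 h2 h3 h4 in
lemma all_z : All (MM α β γ δ) α β γ δ (ez β δ) := by
  obtain ⟨a, b, c, d⟩ := up_all h1 h2 h3 h4
  exact ⟨II_ez_iff.2 a, II_ez_iff.2 b, II_ez_iff.2 c, II_ez_iff.2 d⟩

include h1 h2 h3 h4 in
lemma all_xi : All (MM α β γ δ) α β γ δ (ex α γ)⁻¹ := down_all h1 h2 h3 h4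

include h1 h2 h3 h4 in
lemma all_zi : All (MM α β γ δ) α β γ δ (ez β δ)⁻¹ := by
  obtain ⟨a, b, c, d⟩ := down_all h1 h2 h3 h4
  exact ⟨II_ex_inv_iff.1 a, II_ex_inv_iff.1 b, II_ex_inv_iff.1 c, II_ex_inv_iff.1 d⟩

lemma clm {p q : Γ} (a b : ℕ) : p ^ a * q ^ b ∈ closure ({p, q} : Set Γ) :=
  mul_mem (pow_mem mem_cl_left a) (pow_mem mem_cl_right b)

lemma clm' {p q : Γ} (a b : ℕ) : q ^ a * p ^ b ∈ closure ({p, q} : Set Γ) :=
  mul_mem (pow_mem mem_cl_right a) (pow_mem mem_cl_left b)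

include h1 h2 h3 h4 in
lemma m1 : ez β δ * ex α γ * (ez β δ)⁻¹ * (ex α γ)⁻¹ ∈ MM α β γ δ := by
  rw [c1 h1 h2 h3 h4]
  refine prod4 (PPαβ h1 (by simpa using clm' (p := α) (q := β) 1 1)).1 ?_ ?_
    (PPαβ h1 mem_cl_left).2 1 1 1 1 _ _ _ _ rfl rfl rfl rfl
  · have : β * α = ez β δ * (δ * α) := by simp [ez]
    rw [this]
    exact ((all_z h1 h2 h3 h4).δα h4 (by simpa using clm (p := δ) (q := α) 1 1)).1
  · have : β * α = ex α γ * (γ * β ^ 8) := by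
      have r4 : β * α = α * β ^ (8 : ℤ) := by simpa using rel_swap h1 1 1
      rw [r4]
      simp only [ex]; group
    rw [this]
    exact ((all_x h1 h2 h3 h4).βγ h2 (by simpa using clm' (p := β) (q := γ) 1 8)).2

include h1 h2 h3 h4 in
lemma m2 : (ez β δ)⁻¹ * (ex α γ)⁻¹ * ez β δ * ex α γ ∈ MM α β γ δ := by
  rw [c2 h1 h2 h3 h4]
  refine prod4 (PPγδ h3 (by simpa using clm' (p := γ) (q := δ) 1 1)).1 ?_ ?_
    (PPγδ h3 mem_cl_left).2 1 1 1 1 _ _ _ _ rfl rfl rfl rfl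
  · have : δ * γ = (ez β δ)⁻¹ * (β * γ) := by simp [ez]
    rw [this]
    exact ((all_zi h1 h2 h3 h4).βγ h2 (by simpa using clm (p := β) (q := γ) 1 1)).1
  · have : δ * γ = (ex α γ)⁻¹ * (α * δ ^ 8) := by
      have r4 : δ * γ = γ * δ ^ (8 : ℤ) := by simpa using rel_swap h3 1 1
      rw [r4]
      simp only [ex]; group
    rw [this]
    exact ((all_xi h1 h2 h3 h4).δα h4 (by simpa using clm' (p := δ) (q := α) 1 8)).2

include h1 in
lemma swap2 : β * α ^ 2 = ey α γ * (γ ^ 2 * β ^ 64) := by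
  have r4 : β * α ^ 2 = α ^ 2 * β ^ (64 : ℤ) := by simpa using rel_swap h1 1 2
  rw [r4]
  simp only [ey]; group

include h1 h2 h3 h4 in
lemma m3 : ez β δ * ey α γ * (ez β δ)⁻¹ * (ey α γ)⁻¹ ∈ MM α β γ δ := by
  rw [c3 h1 h2 h3 h4]
  refine prod4 (PPαβ h1 (by simpa using clm' (p := α) (q := β) 1 2)).1 ?_ ?_
    (PPαβ h1 (by simpa using clm (p := α) (q := β) 2 0)).2 2 9 2 9 _ _ _ _ rfl rfl rfl rfl
  · have : β * α ^ 2 = ez β δ * (δ * α ^ 2) := by simp [ez]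
    rw [this]
    exact ((all_z h1 h2 h3 h4).δα h4 (by simpa using clm (p := δ) (q := α) 1 2)).1
  · rw [swap2 (γ := γ) h1, II_left (ey_mem α β γ δ)]
    exact (PPβγ h2 (clm' (p := β) (q := γ) 2 64)).2

include h4 in
lemma delta_alpha : δ * α ^ 2 = (δ * α ^ (-14 : ℤ) * δ⁻¹) * (ey α γ * (γ ^ 2 * δ)) := by
  have r4 : α ^ (2 : ℤ) * δ = δ * α ^ (16 : ℤ) := by simpa using rel_swap h4 2 1
  have : (ey α γ * (γ ^ 2 * δ)) = α ^ (2 : ℤ) * δ := by simp only [ey]; group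
  rw [this, r4]; group

include h4 in
lemma loc14 : δ * α ^ (-14 : ℤ) * δ⁻¹ ∈ MM α β γ δ :=
  pw (PPδα h4 mem_cl_left).2 (-2) _ rfl

include h1 h2 h3 h4 in
lemma m3x : (ex α γ)⁻¹ * (ez β δ * ey α γ * (ez β δ)⁻¹ * (ey α γ)⁻¹) * ex α γ ∈ MM α β γ δ := by
  rw [c3 h1 h2 h3 h4]
  have e : (ex α γ)⁻¹ * ((β * α ^ 2) * (α ^ (14 : ℤ) * δ ^ (63 : ℤ) * γ ^ (14 : ℤ)) *
      (β * α ^ 2)⁻¹ * (α ^ 2 * β ^ (63 : ℤ) * (α ^ 2)⁻¹)) * ex α γ =
      ((ex α γ)⁻¹ * (β * α ^ 2)) * (α ^ (14 : ℤ) * δ ^ (63 : ℤ) * γ ^ (14 : ℤ)) *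
      ((ex α γ)⁻¹ * (β * α ^ 2))⁻¹ *
      (((ex α γ)⁻¹ * α ^ 2) * β ^ (63 : ℤ) * ((ex α γ)⁻¹ * α ^ 2)⁻¹) := by group
  rw [e]
  have e2 : (ex α γ)⁻¹ * (β * α ^ 2) = eu' α β γ δ * (δ * α ^ 2) := by
    simp [eu', ez, mul_assoc]
  refine prod4 ((all_xi h1 h2 h3 h4).αβ h1 (by simpa using clm' (p := α) (q := β) 1 2)).1 ?_ ?_
    ((all_xi h1 h2 h3 h4).αβ h1 (by simpa using clm (p := α) (q := β) 2 0)).2 2 9 2 9
    _ _ _ _ rfl rfl rfl rfl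
  · rw [e2, II_left (eu'_mem α β γ δ)]
    exact (PPδα h4 (by simpa using clm (p := δ) (q := α) 1 2)).1
  · rw [e2, II_left (eu'_mem α β γ δ), delta_alpha (γ := γ) h4,
      II_left (MM_le_KK _ _ _ _ (loc14 h4)), II_left (ey_mem α β γ δ)]
    exact (PPγδ h3 (by simpa using clm (p := γ) (q := δ) 2 1)).1

include h1 h2 h3 h4 in
lemma m4x : ex α γ * ((ez β δ)⁻¹ * ey α γ * ez β δ * (ey α γ)⁻¹) * (ex α γ)⁻¹ ∈
    MM α β γ δ := by
  rw [c4 h1 h2 h3 h4]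
  have e : ex α γ * ((δ * α ^ 2) * (β ^ (-63 : ℤ) * γ ^ (-14 : ℤ) * δ ^ (-63 : ℤ)) *
      (δ * α ^ 2)⁻¹ * (δ * α ^ (-14 : ℤ) * δ⁻¹)) * (ex α γ)⁻¹ =
      (ex α γ * (δ * α ^ 2)) * (β ^ (-63 : ℤ) * γ ^ (-14 : ℤ) * δ ^ (-63 : ℤ)) *
      (ex α γ * (δ * α ^ 2))⁻¹ * ((ex α γ * δ) * α ^ (-14 : ℤ) * (ex α γ * δ)⁻¹) := by group
  rw [e]
  have e2 : ex α γ * (δ * α ^ 2) = eu α β γ δ * (β * α ^ 2) := by
    simp [eu, ez, mul_assoc]
  refine prod4 ?_ ?_ ((all_x h1 h2 h3 h4).δα h4 (by simpa using clm (p := δ) (q := α) 1 2)).1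
    ((all_x h1 h2 h3 h4).δα h4 mem_cl_left).2 (-9) (-2) (-9) (-2) _ _ _ _ rfl rfl rfl rfl
  · rw [e2, II_left (eu_mem α β γ δ)]
    exact (PPαβ h1 (by simpa using clm' (p := α) (q := β) 1 2)).2
  · rw [e2, II_left (eu_mem α β γ δ), swap2 (γ := γ) h1, II_left (ey_mem α β γ δ)]
    exact (PPβγ h2 (clm' (p := β) (q := γ) 2 64)).2

include h1 h2 h3 h4 in
lemma m5 : ex α γ * ew β δ * (ex α γ)⁻¹ * (ew β δ)⁻¹ ∈ MM α β γ δ := by
  rw [c5 h1 h2 h3 h4]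
  refine prod4 ?_ ?_ (PPαβ h1 (by simpa using clm (p := α) (q := β) 1 2)).1
    (PPαβ h1 mem_cl_left).2 (-9) (-2) (-9) (-2) _ _ _ _ rfl rfl rfl rfl
  · have : α * β ^ 2 = ex α γ * (γ * β ^ 2) := by simp [ex]
    rw [this]
    exact ((all_x h1 h2 h3 h4).βγ h2 (by simpa using clm' (p := β) (q := γ) 1 2)).2
  · have r4 : β ^ (2 : ℤ) * α = α * β ^ (16 : ℤ) := by simpa using rel_swap h1 2 1
    have : α * β ^ 2 = (α * β ^ (-14 : ℤ) * α⁻¹) * (ew β δ * (δ ^ 2 * α)) := by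
      have : ew β δ * (δ ^ 2 * α) = β ^ (2 : ℤ) * α := by simp only [ew]; group
      rw [this, r4]; group
    have hm : α * β ^ (-14 : ℤ) * α⁻¹ ∈ MM α β γ δ := pw (PPαβ h1 mem_cl_left).2 (-2) _ rfl
    rw [this, II_left (MM_le_KK _ _ _ _ hm), II_left (ew_mem α β γ δ)]
    exact (PPδα h4 (by simpa using clm (p := δ) (q := α) 2 1)).1

include h1 h2 h3 h4 in
lemma m6 : (ex α γ)⁻¹ * ew β δ * ex α γ * (ew β δ)⁻¹ ∈ MM α β γ δ := by
  rw [c6 h1 h2 h3 h4]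
  refine prod4 (PPβγ h2 (by simpa using clm' (p := β) (q := γ) 1 2)).1 ?_ ?_
    (PPβγ h2 (by simpa using clm (p := β) (q := γ) 2 0)).2 2 9 2 9 _ _ _ _ rfl rfl rfl rfl
  · have : γ * β ^ 2 = (ex α γ)⁻¹ * (α * β ^ 2) := by simp [ex]
    rw [this]
    exact ((all_xi h1 h2 h3 h4).αβ h1 (by simpa using clm (p := α) (q := β) 1 2)).1
  · have r4 : γ * β ^ 2 = β ^ 2 * γ ^ (64 : ℤ) := by simpa using rel_swap h2 1 2
    have : γ * β ^ 2 = ew β δ * (δ ^ 2 * γ ^ 64) := by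
      rw [r4]; simp only [ew]; group
    rw [this, II_left (ew_mem α β γ δ)]
    exact (PPγδ h3 (clm' (p := γ) (q := δ) 2 64)).2

include h1 h2 h3 h4 in
lemma m7 : ey α γ * ew β δ * (ey α γ)⁻¹ * (ew β δ)⁻¹ ∈ MM α β γ δ := by
  rw [c7 h1 h2 h3 h4]
  refine prod4 ?_ ?_ (PPαβ h1 (by simpa using clm (p := α) (q := β) 2 2)).1
    (PPαβ h1 (by simpa using clm (p := α) (q := β) 2 0)).2 (-18) (-18) (-18) (-18)
    _ _ _ _ rfl rfl rfl rfl
  · have : α ^ 2 * β ^ 2 = ey α γ * (γ ^ 2 * β ^ 2) := by simp [ey]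
    rw [this, II_left (ey_mem α β γ δ)]
    exact (PPβγ h2 (by simpa using clm' (p := β) (q := γ) 2 2)).2
  · have r4 : β ^ (2 : ℤ) * α ^ 2 = α ^ 2 * β ^ (128 : ℤ) := by simpa using rel_swap h1 2 2
    have : α ^ 2 * β ^ 2 = (α ^ 2 * β ^ (-126 : ℤ) * (α ^ 2)⁻¹) * (ew β δ * (δ ^ 2 * α ^ 2)) := by
      have : ew β δ * (δ ^ 2 * α ^ 2) = β ^ (2 : ℤ) * α ^ 2 := by simp only [ew]; group
      rw [this, r4]; group
    have hm : α ^ 2 * β ^ (-126 : ℤ) * (α ^ 2)⁻¹ ∈ MM α β γ δ :=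
      pw (PPαβ h1 (by simpa using clm (p := α) (q := β) 2 0)).2 (-18) _ rfl
    rw [this, II_left (MM_le_KK _ _ _ _ hm), II_left (ew_mem α β γ δ)]
    exact (PPδα h4 (by simpa using clm (p := δ) (q := α) 2 2)).1

include h1 h2 h3 h4 in
lemma norm_K {k : Γ} (hk : k ∈ KK α β γ δ) :
    ex α γ * k * (ex α γ)⁻¹ ∈ KK α β γ δ ∧ (ex α γ)⁻¹ * k * ex α γ ∈ KK α β γ δ := by
  rw [KK] at hk
  induction hk using closure_induction with
  | mem k hk =>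
    have hM := MM_le_KK α β γ δ
    have hu := eu_mem α β γ δ
    have hu' := eu'_mem α β γ δ
    have hy := ey_mem α β γ δ
    have hw := ew_mem α β γ δ
    obtain ⟨ua, ub, uc, ud⟩ := all_x h1 h2 h3 h4
    obtain ⟨da, db, dc, dd⟩ := all_xi h1 h2 h3 h4
    simp only [II, inv_inv] at ua ub uc ud da db dc dd
    simp only [gens, Set.mem_insert_iff, Set.mem_singleton_iff] at hk
    rcases hk with rfl | rfl | rfl | rfl | rfl | rfl | rfl | rfl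
    · constructor
      · have : ex α γ * eu α β γ δ * (ex α γ)⁻¹ =
          eu α β γ δ * (ez β δ * ex α γ * (ez β δ)⁻¹ * (ex α γ)⁻¹) := by
          simp only [eu]; group
        rw [this]
        exact mul_mem hu (hM (m1 h1 h2 h3 h4))
      · have : (ex α γ)⁻¹ * eu α β γ δ * ex α γ = (eu' α β γ δ)⁻¹ := by
          simp only [eu, eu']; group
        rw [this]
        exact inv_mem hu'
    · constructor
      · have : ex α γ * eu' α β γ δ * (ex α γ)⁻¹ = (eu α β γ δ)⁻¹ := by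
          simp only [eu, eu']; group
        rw [this]
        exact inv_mem hu
      · have : (ex α γ)⁻¹ * eu' α β γ δ * ex α γ =
          eu' α β γ δ * ((ez β δ)⁻¹ * (ex α γ)⁻¹ * ez β δ * ex α γ) := by
          simp only [eu']; group
        rw [this]
        exact mul_mem hu' (hM (m2 h1 h2 h3 h4))
    · constructor
      · have : ex α γ * ey α γ * (ex α γ)⁻¹ =
          (ex α γ * ((ez β δ)⁻¹ * ey α γ * ez β δ * (ey α γ)⁻¹) * (ex α γ)⁻¹)⁻¹ *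
            (eu α β γ δ * ey α γ * (eu α β γ δ)⁻¹) := by
          simp only [eu]; group
        rw [this]
        exact mul_mem (inv_mem (hM (m4x h1 h2 h3 h4))) (mul_mem (mul_mem hu hy) (inv_mem hu))
      · have : (ex α γ)⁻¹ * ey α γ * ex α γ =
          ((ex α γ)⁻¹ * (ez β δ * ey α γ * (ez β δ)⁻¹ * (ey α γ)⁻¹) * ex α γ)⁻¹ *
            (eu' α β γ δ * ey α γ * (eu' α β γ δ)⁻¹) := by
          simp only [eu']; group
        rw [this]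
        exact mul_mem (inv_mem (hM (m3x h1 h2 h3 h4))) (mul_mem (mul_mem hu' hy) (inv_mem hu'))
    · constructor
      · have : ex α γ * ew β δ * (ex α γ)⁻¹ =
          (ex α γ * ew β δ * (ex α γ)⁻¹ * (ew β δ)⁻¹) * ew β δ := by group
        rw [this]
        exact mul_mem (hM (m5 h1 h2 h3 h4)) hw
      · have : (ex α γ)⁻¹ * ew β δ * ex α γ =
          ((ex α γ)⁻¹ * ew β δ * ex α γ * (ew β δ)⁻¹) * ew β δ := by group
        rw [this]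
        exact mul_mem (hM (m6 h1 h2 h3 h4)) hw
    · exact ⟨hM ua, hM da⟩
    · exact ⟨hM ub, hM db⟩
    · exact ⟨hM uc, hM dc⟩
    · exact ⟨hM ud, hM dd⟩
  | one => simp
  | mul a b _ _ iha ihb =>
    constructor
    · have : ex α γ * (a * b) * (ex α γ)⁻¹ =
        (ex α γ * a * (ex α γ)⁻¹) * (ex α γ * b * (ex α γ)⁻¹) := by group
      rw [this]; exact mul_mem iha.1 ihb.1
    · have : (ex α γ)⁻¹ * (a * b) * ex α γ =
        ((ex α γ)⁻¹ * a * ex α γ) * ((ex α γ)⁻¹ * b * ex α γ) := by group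
      rw [this]; exact mul_mem iha.2 ihb.2
  | inv a _ iha =>
    constructor
    · have : ex α γ * a⁻¹ * (ex α γ)⁻¹ = (ex α γ * a * (ex α γ)⁻¹)⁻¹ := by group
      rw [this]; exact inv_mem iha.1
    · have : (ex α γ)⁻¹ * a⁻¹ * ex α γ = ((ex α γ)⁻¹ * a * ex α γ)⁻¹ := by group
      rw [this]; exact inv_mem iha.2

include h1 h2 h3 h4 in
lemma norm_M {m : Γ} (hm : m ∈ MM α β γ δ) :
    ex α γ * m * (ex α γ)⁻¹ ∈ MM α β γ δ ∧ (ex α γ)⁻¹ * m * ex α γ ∈ MM α β γ δ := by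
  rw [MM] at hm
  induction hm using closure_induction with
  | mem m hm =>
    obtain ⟨k, hk, s, hs, rfl⟩ := hm
    obtain ⟨ua, ub, uc, ud⟩ := all_x h1 h2 h3 h4
    obtain ⟨da, db, dc, dd⟩ := all_xi h1 h2 h3 h4
    simp only [II, inv_inv] at ua ub uc ud da db dc dd
    have hs' : ex α γ * s * (ex α γ)⁻¹ ∈ MM α β γ δ ∧ (ex α γ)⁻¹ * s * ex α γ ∈ MM α β γ δ := by
      simp only [locs, Set.mem_insert_iff, Set.mem_singleton_iff] at hs
      rcases hs with rfl | rfl | rfl | rfl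
      · exact ⟨ua, da⟩
      · exact ⟨ub, db⟩
      · exact ⟨uc, dc⟩
      · exact ⟨ud, dd⟩
    obtain ⟨k1, k2⟩ := norm_K h1 h2 h3 h4 hk
    constructor
    · have : ex α γ * (k * s * k⁻¹) * (ex α γ)⁻¹ = (ex α γ * k * (ex α γ)⁻¹) *
        (ex α γ * s * (ex α γ)⁻¹) * (ex α γ * k * (ex α γ)⁻¹)⁻¹ := by group
      rw [this]; exact conj_MM _ _ _ _ k1 hs'.1
    · have : (ex α γ)⁻¹ * (k * s * k⁻¹) * ex α γ = ((ex α γ)⁻¹ * k * ex α γ) *
        ((ex α γ)⁻¹ * s * ex α γ) * ((ex α γ)⁻¹ * k * ex α γ)⁻¹ := by group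
      rw [this]; exact conj_MM _ _ _ _ k2 hs'.2
  | one => simp
  | mul a b _ _ iha ihb =>
    constructor
    · have : ex α γ * (a * b) * (ex α γ)⁻¹ =
        (ex α γ * a * (ex α γ)⁻¹) * (ex α γ * b * (ex α γ)⁻¹) := by group
      rw [this]; exact mul_mem iha.1 ihb.1
    · have : (ex α γ)⁻¹ * (a * b) * ex α γ =
        ((ex α γ)⁻¹ * a * ex α γ) * ((ex α γ)⁻¹ * b * ex α γ) := by group
      rw [this]; exact mul_mem iha.2 ihb.2
  | inv a _ iha =>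
    constructor
    · have : ex α γ * a⁻¹ * (ex α γ)⁻¹ = (ex α γ * a * (ex α γ)⁻¹)⁻¹ := by group
      rw [this]; exact inv_mem iha.1
    · have : (ex α γ)⁻¹ * a⁻¹ * ex α γ = ((ex α γ)⁻¹ * a * ex α γ)⁻¹ := by group
      rw [this]; exact inv_mem iha.2

include h1 h2 h3 h4 in
lemma x_mem_normalizer : ex α γ ∈ normalizer (MM α β γ δ : Set Γ) := by
  rw [mem_normalizer_iff]
  intro m
  constructor
  · intro hm; exact (norm_M h1 h2 h3 h4 hm).1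
  · intro hm
    have := (norm_M h1 h2 h3 h4 hm).2
    have e : (ex α γ)⁻¹ * (ex α γ * m * (ex α γ)⁻¹) * ex α γ = m := by group
    rwa [e] at this

lemma K_le_normalizer {k : Γ} (hk : k ∈ KK α β γ δ) :
    k ∈ normalizer (MM α β γ δ : Set Γ) := by
  rw [mem_normalizer_iff]
  intro m
  constructor
  · intro hm; exact conj_MM _ _ _ _ hk hm
  · intro hm
    have := conj_MM _ _ _ _ (inv_mem hk) hm
    have e : k⁻¹ * (k * m * k⁻¹) * k⁻¹⁻¹ = m := by group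
    rwa [e] at this

include h1 h2 h3 h4 in
/-- The key commutation relations: modulo the local elements, `y` commutes with all conjugates of
`w` by powers of `u`. -/
theorem comm_mem (n : ℤ) :
    ey α γ * (eu α β γ δ ^ n * ew β δ * (eu α β γ δ ^ n)⁻¹) * (ey α γ)⁻¹ *
      (eu α β γ δ ^ n * ew β δ * (eu α β γ δ ^ n)⁻¹)⁻¹ ∈ MM α β γ δ := by
  have hx := x_mem_normalizer h1 h2 h3 h4
  have hz : ez β δ ∈ normalizer (MM α β γ δ : Set Γ) := by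
    have : ez β δ = (eu α β γ δ)⁻¹ * ex α γ := by simp [eu]
    rw [this]
    exact mul_mem (inv_mem (K_le_normalizer (eu_mem α β γ δ))) hx
  exact comm_quot (MM α β γ δ) (ex α γ) (ey α γ) (ez β δ) (ew β δ) hx
    (K_le_normalizer (ey_mem α β γ δ)) hz (K_le_normalizer (ew_mem α β γ δ))
    (m1 h1 h2 h3 h4) (m5 h1 h2 h3 h4) (m7 h1 h2 h3 h4) (m3 h1 h2 h3 h4) n

end rels

end Main

end Pool.Agent.H687R3
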