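import Mathlib
import Pool.Agent.H687R3.Amalgam

/-!
# An overgroup of the Baumslag-Solitar group BS(1,2)

`BSG` is the semidirect product of `ℚ × ℤ/3 × ℤ/7` by `ℤ`, the generator of `ℤ` acting so that
conjugation by it doubles. It contains BS(1,2).
-/

namespace Pool.Agent.H687R3

open Monoid Function

/-- the coefficient ring -/
abbrev RR := ℚ × ZMod 3 × ZMod 7

/-- the unit two of the coefficient ring -/
def two : RRˣ where
  val := (2, 2, 2)
  inv := (1 / 2, 2, 4)
  val_inv := by
    refine Prod.ext ?_ (Prod.ext ?_ ?_)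
    · norm_num
    · decide
    · decide
  inv_val := by
    refine Prod.ext ?_ (Prod.ext ?_ ?_)
    · norm_num
    · decide
    · decide

/-- The overgroup of BS(1,2). -/
@[ext] structure BSG where
  /-- the translation part -/
  u : RR
  /-- the exponent -/
  k : ℤ

namespace BSG

instance : Mul BSG := ⟨fun x y => ⟨x.u + ((two ^ (-x.k) : RRˣ) : RR) * y.u, x.k + y.k⟩⟩
instance : One BSG := ⟨⟨0, 0⟩⟩
instance : Inv BSG := ⟨fun x => ⟨-(((two ^ x.k : RRˣ) : RR) * x.u), -x.k⟩⟩

@[simp] lemma mul_u (x y : BSG) : (x * y).u = x.u + ((two ^ (-x.k) : RRˣ) : RR) * y.u := rfl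
@[simp] lemma mul_k (x y : BSG) : (x * y).k = x.k + y.k := rfl
@[simp] lemma one_u : (1 : BSG).u = 0 := rfl
@[simp] lemma one_k : (1 : BSG).k = 0 := rfl
@[simp] lemma inv_u (x : BSG) : (x⁻¹).u = -(((two ^ x.k : RRˣ) : RR) * x.u) := rfl
@[simp] lemma inv_k (x : BSG) : (x⁻¹).k = -x.k := rfl

instance : Group BSG := Group.ofLeftAxioms
  (by
    intro x y z
    apply BSG.ext
    · simp only [mul_u, mul_k, neg_add, zpow_add, Units.val_mul]
      ring
    · simp only [mul_k]
      ring)
  (by
    intro x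
    apply BSG.ext
    · simp
    · simp)
  (by
    intro x
    apply BSG.ext
    · simp
    · simp)

end BSG

/-- the base generator powers -/
def eps : Multiplicative ℤ →* BSG where
  toFun n := ⟨((Multiplicative.toAdd n : ℤ) : RR), 0⟩
  map_one' := by
    apply BSG.ext <;> simp
  map_mul' x y := by
    apply BSG.ext <;> simp

/-- the stable letter powers -/
def sig : Multiplicative ℤ →* BSG where
  toFun n := ⟨0, Multiplicative.toAdd n⟩
  map_one' := by
    apply BSG.ext <;> simp
  map_mul' x y := by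
    apply BSG.ext <;> simp

@[simp] lemma eps_u (n : Multiplicative ℤ) : (eps n).u = ((Multiplicative.toAdd n : ℤ) : RR) := rfl
@[simp] lemma eps_k (n : Multiplicative ℤ) : (eps n).k = 0 := rfl
@[simp] lemma sig_u (n : Multiplicative ℤ) : (sig n).u = 0 := rfl
@[simp] lemma sig_k (n : Multiplicative ℤ) : (sig n).k = Multiplicative.toAdd n := rfl

lemma eps_injective : Injective eps := by
  intro x y h
  have h1 := congrArg (fun g : BSG => g.u.1) h
  simp at h1
  exact h1

lemma sig_injective : Injective sig := by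
  intro x y h
  have h1 := congrArg (fun g : BSG => g.k) h
  simpa using h1

/-- the subgroup -/
def SS : Subgroup BSG where
  carrier := {g | g.u.2.1 = 0 ∧ (3 : ℤ) ∣ g.k}
  mul_mem' := by
    rintro x y ⟨hx1, hx2⟩ ⟨hy1, hy2⟩
    refine ⟨?_, ?_⟩
    · simp [hx1, hy1]
    · simpa using dvd_add hx2 hy2
  one_mem' := by simp
  inv_mem' := by
    rintro x ⟨hx1, hx2⟩
    refine ⟨?_, ?_⟩
    · simp [hx1]
    · simpa using hx2

lemma mem_SS {g : BSG} : g ∈ SS ↔ g.u.2.1 = 0 ∧ (3 : ℤ) ∣ g.k := Iff.rfl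

/-- the multiples of three -/
def H3 : Subgroup (Multiplicative ℤ) where
  carrier := {n | (3 : ℤ) ∣ Multiplicative.toAdd n}
  mul_mem' := by
    intro x y hx hy
    simpa using dvd_add hx hy
  one_mem' := by simp
  inv_mem' := by
    intro x hx
    simpa using hx

lemma mem_H3 {n : Multiplicative ℤ} : n ∈ H3 ↔ (3 : ℤ) ∣ Multiplicative.toAdd n := Iff.rfl

lemma eps_mem_SS {n : Multiplicative ℤ} : eps n ∈ SS ↔ n ∈ H3 := by
  rw [mem_SS, mem_H3]
  simp only [eps_u, eps_k, dvd_zero, and_true]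
  have : (((Multiplicative.toAdd n : ℤ) : RR)).2.1 = ((Multiplicative.toAdd n : ℤ) : ZMod 3) := by
    simp
  rw [this]
  exact ZMod.intCast_zmod_eq_zero_iff_dvd _ 3

lemma sig_mem_SS {n : Multiplicative ℤ} : sig n ∈ SS ↔ n ∈ H3 := by
  rw [mem_SS, mem_H3]
  simp

/-- base maps: the middle generator is the base letter of the first group and the stable letter of
the second. -/
def φ1 (i : Bool) : Multiplicative ℤ →* BSG := if i then eps else sig

/-- the outer letters -/
def τ1 (i : Bool) : Multiplicative ℤ →* BSG := if i then sig else eps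

@[simp] lemma φ1_true : φ1 true = eps := rfl
@[simp] lemma φ1_false : φ1 false = sig := rfl
@[simp] lemma τ1_true : τ1 true = sig := rfl
@[simp] lemma τ1_false : τ1 false = eps := rfl

lemma φ1_injective (i : Bool) : Injective (φ1 i) := by
  cases i
  · exact sig_injective
  · exact eps_injective

lemma τ1_injective (i : Bool) : Injective (τ1 i) := by
  cases i
  · exact eps_injective
  · exact sig_injective

lemma hS1 (i : Bool) (h : Multiplicative ℤ) : φ1 i h ∈ SS ↔ h ∈ H3 := by
  cases i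
  · exact sig_mem_SS
  · exact eps_mem_SS

lemma τ1_mem_SS (i : Bool) (h : Multiplicative ℤ) : τ1 i h ∈ SS ↔ h ∈ H3 := by
  cases i
  · exact eps_mem_SS
  · exact sig_mem_SS

/-- the explicit transversal sets -/
def tset (i : Bool) : Set BSG :=
  if i then {g | g.u.2.1 = 0 ∧ 0 ≤ g.u.1 ∧ g.u.1 < 3} else {g | g.k = 0}

lemma mem_tset_true {g : BSG} : g ∈ tset true ↔ g.u.2.1 = 0 ∧ 0 ≤ g.u.1 ∧ g.u.1 < 3 := Iff.rfl
lemma mem_tset_false {g : BSG} : g ∈ tset false ↔ g.k = 0 := Iff.rfl

lemma one_mem_tset (i : Bool) : 1 ∈ tset i := by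
  cases i
  · rw [mem_tset_false]; rfl
  · rw [mem_tset_true]
    simp

/-- the coset representative: existence and uniqueness -/
lemma exists_rep_true (g : BSG) : ∃! n : Multiplicative ℤ, (eps n)⁻¹ * g ∈ tset true := by
  set v : ℤ := (g.u.2.1.val : ℤ) with hv
  set m : ℤ := ⌊(g.u.1 - v) / 3⌋ with hm
  have key : ∀ n : ℤ, ((eps (Multiplicative.ofAdd n))⁻¹ * g ∈ tset true) ↔
      (g.u.2.1 = (n : ZMod 3) ∧ (n : ℚ) ≤ g.u.1 ∧ g.u.1 < n + 3) := by
    intro n
    rw [mem_tset_true]
    simp only [BSG.mul_u, BSG.inv_u, BSG.inv_k, eps_u, eps_k, toAdd_ofAdd, zpow_zero, neg_zero,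
      Units.val_one, one_mul, Prod.fst_add, Prod.snd_add, Prod.fst_neg, Prod.snd_neg,
      Prod.fst_intCast, Prod.snd_intCast]
    constructor
    · rintro ⟨h1, h2, h3⟩
      refine ⟨?_, by linarith, by linarith⟩
      have : g.u.2.1 = (n : ZMod 3) + (-(n : ZMod 3) + g.u.2.1) := by ring
      rw [this, h1, add_zero]
    · rintro ⟨h1, h2, h3⟩
      refine ⟨?_, by linarith, by linarith⟩
      rw [h1]; ring
  have hvz : ((v : ℤ) : ZMod 3) = g.u.2.1 := by
    rw [hv]; simp
  refine ⟨Multiplicative.ofAdd (v + 3 * m), ?_, ?_⟩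
  · change (eps (Multiplicative.ofAdd (v + 3 * m)))⁻¹ * g ∈ tset true
    rw [key]
    refine ⟨?_, ?_, ?_⟩
    · push_cast
      rw [hvz]
      have : (3 : ZMod 3) = 0 := by decide
      rw [this]; ring
    · have := Int.floor_le ((g.u.1 - v) / 3)
      push_cast
      rw [← hm] at this
      linarith
    · have := Int.lt_floor_add_one ((g.u.1 - v) / 3)
      push_cast
      rw [← hm] at this
      linarith
  · intro n hn
    change (eps n)⁻¹ * g ∈ tset true at hn
    obtain ⟨n, rfl⟩ := Multiplicative.ofAdd.surjective n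
    rw [key] at hn
    obtain ⟨h1, h2, h3⟩ := hn
    have h4 : ((n - v : ℤ) : ZMod 3) = 0 := by
      push_cast
      rw [hvz, h1]; ring
    rw [ZMod.intCast_zmod_eq_zero_iff_dvd] at h4
    obtain ⟨q, hq⟩ := h4
    have h5 : n = v + 3 * q := by
      have : (n - v) = 3 * q := by exact_mod_cast hq
      linarith
    have h6 : q = m := by
      symm
      rw [hm, Int.floor_eq_iff]
      have : (n : ℚ) = v + 3 * q := by exact_mod_cast h5
      rw [this] at h2 h3
      constructor <;> linarith
    rw [h5, h6]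

lemma exists_rep_false (g : BSG) : ∃! n : Multiplicative ℤ, (sig n)⁻¹ * g ∈ tset false := by
  refine ⟨Multiplicative.ofAdd g.k, ?_, ?_⟩
  · change (sig (Multiplicative.ofAdd g.k))⁻¹ * g ∈ tset false
    rw [mem_tset_false]
    simp
  · intro n hn
    change (sig n)⁻¹ * g ∈ tset false at hn
    rw [mem_tset_false] at hn
    simp only [BSG.mul_k, BSG.inv_k, sig_k] at hn
    apply Multiplicative.toAdd.injective
    simp only [toAdd_ofAdd]
    linarith

lemma exists_rep (i : Bool) (g : BSG) : ∃! n : Multiplicative ℤ, (φ1 i n)⁻¹ * g ∈ tset i := by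
  cases i
  · exact exists_rep_false g
  · exact exists_rep_true g

/-- compatibility with the subgroup -/
lemma rep_mem (i : Bool) (g : BSG) (hg : g ∈ SS) (n : Multiplicative ℤ)
    (hn : (φ1 i n)⁻¹ * g ∈ tset i) : n ∈ H3 := by
  cases i
  · rw [mem_tset_false] at hn
    simp only [φ1_false, BSG.mul_k, BSG.inv_k, sig_k] at hn
    rw [mem_H3]
    have : Multiplicative.toAdd n = g.k := by linarith
    rw [this]
    exact hg.2
  · rw [mem_tset_true] at hn
    have h1 := hn.1
    simp only [φ1_true, BSG.mul_u, BSG.inv_u, BSG.inv_k, eps_u, eps_k, zpow_zero, neg_zero,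
      Units.val_one, one_mul, Prod.fst_add, Prod.snd_add, Prod.fst_neg, Prod.snd_neg,
      Prod.fst_intCast, Prod.snd_intCast] at h1
    rw [hg.1, add_zero, neg_eq_zero, ZMod.intCast_zmod_eq_zero_iff_dvd] at h1
    exact_mod_cast h1

lemma τ1_mem_tset (i : Bool) (n : Multiplicative ℤ) : τ1 i n ∈ tset i := by
  cases i
  · rw [mem_tset_false]; rfl
  · rw [mem_tset_true]
    simp

end Pool.Agent.H687R3
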