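import Mathlib
import Pool.Agent.H687R3.Level1

/-!
# The amalgam of two copies of the overgroup of BS(1,2), and its outer free subgroup
-/

namespace Pool.Agent.H687R3

open Monoid Function

lemma isComplement_of_exists_rep {G H : Type*} [Group G] [Group H] (f : H →* G)
    (_hf : Injective f) (T : Set G) (h : ∀ g : G, ∃! n : H, (f n)⁻¹ * g ∈ T) :
    Subgroup.IsComplement (f.range : Set G) T := by
  rw [Subgroup.isComplement_iff_existsUnique]
  intro g
  obtain ⟨n, hn, hu⟩ := h g
  refine ⟨⟨⟨f n, ⟨n, rfl⟩⟩, ⟨(f n)⁻¹ * g, hn⟩⟩, by simp, ?_⟩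
  rintro ⟨⟨_, ⟨m, rfl⟩⟩, ⟨t, ht⟩⟩ hmt
  simp only at hmt
  have h1 : (f m)⁻¹ * g = t := by rw [← hmt]; group
  have h2 : m = n := hu m (by simpa [h1] using ht)
  subst h2
  simp [h1]

/-- The transversal for the amalgam. -/
def d1 : PushoutI.NormalWord.Transversal φ1 where
  injective := φ1_injective
  set := tset
  one_mem := one_mem_tset
  compl i := isComplement_of_exists_rep (φ1 i) (φ1_injective i) (tset i) (exists_rep i)

/-- The maps of the sub-amalgam. -/
abbrev φ1' : ∀ i : Bool, H3 →* SS := subφ φ1 (fun _ => SS) H3 hS1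

/-- The transversal for the sub-amalgam. -/
def d1' : PushoutI.NormalWord.Transversal φ1' where
  injective := subφ_injective φ1 (fun _ => SS) H3 hS1 φ1_injective
  set i := {s | (s : BSG) ∈ tset i}
  one_mem i := one_mem_tset i
  compl i := by
    apply isComplement_of_exists_rep (φ1' i)
      (subφ_injective φ1 (fun _ => SS) H3 hS1 φ1_injective i)
    intro g
    obtain ⟨n, hn, hu⟩ := exists_rep i (g : BSG)
    have hn' : n ∈ H3 := rep_mem i g g.2 n hn
    refine ⟨⟨n, hn'⟩, ?_, ?_⟩
    · simpa using hn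
    · rintro ⟨m, hm⟩ hmt
      apply Subtype.ext
      apply hu m
      simpa using hmt

/-- the amalgam -/
abbrev AA := PushoutI φ1

/-- the sub-amalgam -/
abbrev AA' := PushoutI φ1'

/-- the map from the sub-amalgam -/
abbrev j1 : AA' →* AA := jmap φ1 (fun _ => SS) H3 hS1

lemma j1_injective : Injective j1 := jmap_injective φ1 (fun _ => SS) H3 hS1 φ1_injective

/-- the normal word of an element of the sub-amalgam -/
def nw (w : PushoutI.NormalWord d1') : PushoutI.NormalWord d1 where
  toWord := wordMap (fun _ => SS.subtype) (fun _ => SS.subtype_injective) w.toWord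
  head := (w.head : Multiplicative ℤ)
  normalized := by
    intro i g hg
    rw [wordMap_toList, List.mem_map] at hg
    obtain ⟨l, hl, hlg⟩ := hg
    have := w.normalized l.1 l.2 hl
    obtain ⟨l1, l2⟩ := l
    simp only [Sigma.mk.injEq] at hlg
    obtain ⟨rfl, h2⟩ := hlg
    have h3 := eq_of_heq h2
    subst h3
    exact this

lemma nw_prod (w : PushoutI.NormalWord d1') : (nw w).prod = j1 w.prod := by
  rw [PushoutI.NormalWord.prod, PushoutI.NormalWord.prod, map_mul]
  change PushoutI.base φ1 (w.head : Multiplicative ℤ) * _ = _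
  congr 1
  exact (jmap_word φ1 (fun _ => SS) H3 hS1 w.toWord).symm

/-- the free group on the outer generators, as a free product -/
abbrev CC := CoprodI (fun _ : Bool => Multiplicative ℤ)

/-- its map to the amalgam -/
def κ : CC →* AA := CoprodI.lift (fun i => (PushoutI.of i).comp (τ1 i))

@[simp] lemma κ_of (i : Bool) (n : Multiplicative ℤ) :
    κ (CoprodI.of (i := i) n) = PushoutI.of i (τ1 i n) := by
  simp [κ]

/-- the normal word of an element of the free group -/
def cw (w : CoprodI.Word (fun _ : Bool => Multiplicative ℤ)) : PushoutI.NormalWord d1 where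
  toWord := wordMap τ1 τ1_injective w
  head := 1
  normalized := by
    intro i g hg
    rw [wordMap_toList, List.mem_map] at hg
    obtain ⟨l, hl, hlg⟩ := hg
    obtain ⟨l1, l2⟩ := l
    simp only [Sigma.mk.injEq] at hlg
    obtain ⟨rfl, h2⟩ := hlg
    have h3 := eq_of_heq h2
    subst h3
    exact τ1_mem_tset _ _

lemma cw_prod (w : CoprodI.Word (fun _ : Bool => Multiplicative ℤ)) : (cw w).prod = κ w.prod := by
  rw [PushoutI.NormalWord.prod]
  change PushoutI.base φ1 1 * _ = _
  rw [map_one, one_mul]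
  exact word_prod_eq τ1 τ1_injective _ w

lemma κ_injective : Injective κ := by
  classical
  intro x y hxy
  obtain ⟨w, rfl⟩ := (CoprodI.Word.equiv (M := fun _ : Bool => Multiplicative ℤ)).symm.surjective x
  obtain ⟨v, rfl⟩ := (CoprodI.Word.equiv (M := fun _ : Bool => Multiplicative ℤ)).symm.surjective y
  change κ w.prod = κ v.prod at hxy
  rw [← cw_prod, ← cw_prod] at hxy
  have h := PushoutI.NormalWord.prod_injective hxy
  have h2 := congrArg (fun z : PushoutI.NormalWord d1 => z.toList) h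
  have h3 : w.toList = v.toList := by
    change (w.toList.map fun l => (⟨l.1, τ1 l.1 l.2⟩ : Σ _ : Bool, BSG)) =
      (v.toList.map fun l => (⟨l.1, τ1 l.1 l.2⟩ : Σ _ : Bool, BSG)) at h2
    refine List.map_injective_iff.2 ?_ h2
    rintro ⟨i, a⟩ ⟨k, b⟩ hab
    simp only [Sigma.mk.injEq] at hab
    obtain ⟨rfl, hab⟩ := hab
    have := τ1_injective i (eq_of_heq hab)
    rw [this]
  have h4 : w = v := CoprodI.Word.ext h3
  rw [h4]

/-- the cubing map of the free group -/
def ν : CC →* CC := CoprodI.lift (fun i => (CoprodI.of (i := i)).comp (powMonoidHom 3))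

@[simp] lemma ν_of (i : Bool) (n : Multiplicative ℤ) :
    ν (CoprodI.of (i := i) n) = CoprodI.of (i := i) (n ^ 3) := by
  simp [ν]

/-- the subgroup generated by the cubes -/
def C3 : Subgroup CC := ν.range

lemma cube_mem_H3 (n : Multiplicative ℤ) : n ^ 3 ∈ H3 := by
  rw [mem_H3, toAdd_pow]
  simp

lemma exists_cube {n : Multiplicative ℤ} (hn : n ∈ H3) : ∃ m, m ^ 3 = n := by
  rw [mem_H3] at hn
  obtain ⟨q, hq⟩ := hn
  refine ⟨Multiplicative.ofAdd q, ?_⟩
  apply Multiplicative.toAdd.injective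
  rw [toAdd_pow, toAdd_ofAdd, hq]
  simp

lemma κ_mem_of_mem_C3 {c : CC} (hc : c ∈ C3) : κ c ∈ j1.range := by
  obtain ⟨c, rfl⟩ := hc
  rw [← MonoidHom.comp_apply]
  induction c using CoprodI.induction_on with
  | one => rw [map_one]; exact one_mem _
  | of i n =>
    refine ⟨PushoutI.of i ⟨τ1 i (n ^ 3), (τ1_mem_SS i _).2 (cube_mem_H3 n)⟩, ?_⟩
    rw [jmap_of, MonoidHom.comp_apply, ν_of, κ_of]
  | mul x y hx hy => rw [map_mul]; exact mul_mem hx hy

lemma mem_C3_of_κ_mem {c : CC} (hc : κ c ∈ j1.range) : c ∈ C3 := by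
  classical
  obtain ⟨w, rfl⟩ := (CoprodI.Word.equiv (M := fun _ : Bool => Multiplicative ℤ)).symm.surjective c
  change κ w.prod ∈ j1.range at hc
  change w.prod ∈ C3
  obtain ⟨x, hx⟩ := hc
  obtain ⟨v, rfl⟩ := (PushoutI.NormalWord.equiv (d := d1')).symm.surjective x
  change j1 v.prod = κ w.prod at hx
  rw [← nw_prod, ← cw_prod] at hx
  have h := PushoutI.NormalWord.prod_injective hx
  have h2 := congrArg (fun z : PushoutI.NormalWord d1 => z.toList) h
  change (v.toList.map fun l => (⟨l.1, (l.2 : BSG)⟩ : Σ _ : Bool, BSG)) =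
      (w.toList.map fun l => (⟨l.1, τ1 l.1 l.2⟩ : Σ _ : Bool, BSG)) at h2
  have h3 : ∀ l ∈ w.toList, l.2 ∈ H3 := by
    intro l hl
    have h4 : (⟨l.1, τ1 l.1 l.2⟩ : Σ _ : Bool, BSG) ∈
        (w.toList.map fun l => (⟨l.1, τ1 l.1 l.2⟩ : Σ _ : Bool, BSG)) :=
      List.mem_map.2 ⟨l, hl, rfl⟩
    rw [← h2, List.mem_map] at h4
    obtain ⟨l', -, hl'⟩ := h4
    simp only [Sigma.mk.injEq] at hl'
    obtain ⟨-, h5⟩ := hl'
    have h6 := eq_of_heq h5
    rw [← τ1_mem_SS l.1, ← h6]
    exact l'.2.2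
  rw [CoprodI.Word.prod]
  apply Subgroup.list_prod_mem
  intro x hx
  rw [List.mem_map] at hx
  obtain ⟨l, hl, rfl⟩ := hx
  obtain ⟨m, hm⟩ := exists_cube (h3 l hl)
  refine ⟨CoprodI.of (i := l.1) m, ?_⟩
  rw [ν_of, hm]

lemma κ_mem_iff {c : CC} : κ c ∈ j1.range ↔ c ∈ C3 := ⟨mem_C3_of_κ_mem, κ_mem_of_mem_C3⟩

/-- swapping the two free factors -/
def swapC : CC →* CC :=
  CoprodI.lift (fun i => CoprodI.of (M := fun _ : Bool => Multiplicative ℤ) (i := !i))

@[simp] lemma swapC_of (i : Bool) (n : Multiplicative ℤ) :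
    swapC (CoprodI.of (i := i) n) = CoprodI.of (i := !i) n := by
  simp [swapC]

lemma swapC_swapC (c : CC) : swapC (swapC c) = c := by
  have : swapC.comp swapC = MonoidHom.id CC := by
    apply CoprodI.ext_hom
    intro i
    ext
    simp
  exact DFunLike.congr_fun this c

lemma swapC_injective : Injective swapC := fun x y h => by
  rw [← swapC_swapC x, h, swapC_swapC]

lemma swapC_ν (c : CC) : swapC (ν c) = ν (swapC c) := by
  have : swapC.comp ν = ν.comp swapC := by
    apply CoprodI.ext_hom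
    intro i
    ext
    simp
  exact DFunLike.congr_fun this c

lemma swapC_mem_C3 {c : CC} : swapC c ∈ C3 ↔ c ∈ C3 := by
  constructor
  · rintro ⟨b, hb⟩
    refine ⟨swapC b, ?_⟩
    rw [← swapC_ν, hb, swapC_swapC]
  · rintro ⟨b, rfl⟩
    exact ⟨swapC b, (swapC_ν b).symm⟩

/-- the amalgam, as a plain type -/
def A0 : Type := PushoutI φ1

instance : Group A0 := inferInstanceAs (Group (PushoutI φ1))

/-- the identity map -/
def toA0 : AA →* A0 where
  toFun x := x
  map_one' := rfl
  map_mul' _ _ := rfl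

lemma toA0_injective : Injective toA0 := fun _ _ h => h

/-- the map from the sub-amalgam -/
def j10 : AA' →* A0 := toA0.comp j1

lemma j10_apply (x : AA') : j10 x = toA0 (j1 x) := rfl

lemma j10_injective : Injective j10 := toA0_injective.comp j1_injective

/-- the map from the outer free group -/
def κ0 : CC →* A0 := toA0.comp κ

lemma κ0_apply (c : CC) : κ0 c = toA0 (κ c) := rfl

lemma κ0_injective : Injective κ0 := toA0_injective.comp κ_injective

lemma κ0_mem_iff {c : CC} : κ0 c ∈ j10.range ↔ c ∈ C3 := by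
  rw [← κ_mem_iff]
  constructor
  · rintro ⟨x, hx⟩
    exact ⟨x, toA0_injective hx⟩
  · rintro ⟨x, hx⟩
    exact ⟨x, congrArg toA0 hx⟩

/-- The two embeddings of the free group in the amalgam. -/
def φ2 (i : Bool) : CC →* A0 := if i then κ0 else κ0.comp swapC

@[simp] lemma φ2_true : φ2 true = κ0 := rfl
@[simp] lemma φ2_false : φ2 false = κ0.comp swapC := rfl

lemma φ2_injective (i : Bool) : Injective (φ2 i) := by
  cases i
  · exact κ0_injective.comp swapC_injective
  · exact κ0_injective

lemma hS2 (i : Bool) (c : CC) : φ2 i c ∈ j10.range ↔ c ∈ C3 := by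
  cases i
  · rw [φ2_false, MonoidHom.comp_apply, κ0_mem_iff, swapC_mem_C3]
  · exact κ0_mem_iff

/-- the big amalgam, an image of Higman's group maps to it -/
abbrev HH := PushoutI φ2

/-- the sub-amalgam maps -/
abbrev φ2' : ∀ i : Bool, C3 →* j10.range := subφ φ2 (fun _ => j10.range) C3 hS2

/-- the sub-amalgam -/
abbrev HH' := PushoutI φ2'

/-- the inclusion -/
abbrev j2 : HH' →* HH := jmap φ2 (fun _ => j10.range) C3 hS2

lemma j2_injective : Injective j2 := jmap_injective φ2 (fun _ => j10.range) C3 hS2 φ2_injective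

end Pool.Agent.H687R3
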