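import Mathlib
import Pool.Agent.H687R3.Level1b

/-!
# Homomorphisms on the subgroup generated by cubes in Higman's group
-/

namespace Pool.Agent.H687R3

open Monoid Function

section HomSS

variable {L : Type*} [Group L]

lemma pow_val_add {q : L} (hq : q ^ 7 = 1) (a b : ZMod 7) :
    q ^ (a + b).val = q ^ a.val * q ^ b.val := by
  rw [ZMod.val_add, ← pow_add]
  conv_rhs => rw [← Nat.div_add_mod (a.val + b.val) 7, pow_add, pow_mul, hq, one_pow, one_mul]

lemma pow_val_intCast {q : L} (hq : q ^ 7 = 1) (n : ℤ) :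
    q ^ ((n : ZMod 7)).val = q ^ n := by
  have h1 : (((n : ZMod 7)).val : ℤ) = n % 7 := ZMod.val_intCast n
  rw [← zpow_natCast, h1]
  conv_rhs => rw [← Int.mul_ediv_add_emod n 7, zpow_add, zpow_mul]
  have h2 : q ^ (7 : ℤ) = 1 := by exact_mod_cast hq
  rw [h2]; simp

lemma two_zpow_seven {k : ℤ} (hk : (3 : ℤ) ∣ k) : ((two ^ k : RRˣ) : RR).2.2 = 1 := by
  obtain ⟨m, rfl⟩ := hk
  rw [zpow_mul]
  have h1 : ∀ x : RRˣ, (x : RR).2.2 = 1 → ((x⁻¹ : RRˣ) : RR).2.2 = 1 := by
    intro x hx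
    have := congrArg (fun y : RR => y.2.2) (x.mul_inv)
    simp only [Prod.snd_mul, Prod.snd_one, hx, one_mul] at this
    exact this
  have h2 : ((two ^ (3 : ℤ) : RRˣ) : RR).2.2 = 1 := by
    have : (two ^ (3 : ℤ) : RRˣ) = two * two * two := by
      rw [show (3 : ℤ) = 1 + 1 + 1 from rfl, zpow_add, zpow_add, zpow_one]
    rw [this]
    simp only [Units.val_mul, Prod.snd_mul]
    decide
  have h3 : ∀ (x : RRˣ), (x : RR).2.2 = 1 → ∀ n : ℕ, ((x ^ n : RRˣ) : RR).2.2 = 1 := by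
    intro x hx n
    rw [Units.val_pow_eq_pow_val, Prod.pow_snd, Prod.pow_snd, hx, one_pow]
  cases m with
  | ofNat n =>
    simpa using h3 _ h2 n
  | negSucc n =>
    rw [zpow_negSucc]
    exact h1 _ (h3 _ h2 _)

/-- The homomorphism from the subgroup of the overgroup of BS(1,2) sending the cube of the stable
letter to `p` and the cube of the base letter to `q`. -/
def SL (p q : L) (_hp : p ^ 7 = 1) (hq : q ^ 7 = 1) (hpq : Commute p q) : SS →* L where
  toFun g := (p ^ 5) ^ (g : BSG).k * (q ^ 5) ^ ((g : BSG).u.2.2).val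
  map_one' := by simp
  map_mul' := by
    rintro ⟨x, hx⟩ ⟨y, hy⟩
    simp only [Subgroup.coe_mul, BSG.mul_k, BSG.mul_u, Prod.snd_add, Prod.snd_mul]
    have h1 : ((two ^ (-x.k) : RRˣ) : RR).2.2 = 1 := two_zpow_seven (by simpa using hx.2)
    have hq5 : (q ^ 5) ^ 7 = 1 := by rw [← pow_mul, mul_comm, pow_mul, hq, one_pow]
    rw [h1, one_mul, pow_val_add hq5, zpow_add]
    have hc : Commute ((p ^ 5) ^ y.k) ((q ^ 5) ^ (x.u.2.2).val) :=
      ((hpq.pow_pow 5 5).zpow_left _).pow_right _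
    calc (p ^ 5) ^ x.k * (p ^ 5) ^ y.k * ((q ^ 5) ^ (x.u.2.2).val * (q ^ 5) ^ (y.u.2.2).val)
        = (p ^ 5) ^ x.k * ((p ^ 5) ^ y.k * (q ^ 5) ^ (x.u.2.2).val) * (q ^ 5) ^ (y.u.2.2).val := by
          group
      _ = (p ^ 5) ^ x.k * ((q ^ 5) ^ (x.u.2.2).val * (p ^ 5) ^ y.k) * (q ^ 5) ^ (y.u.2.2).val := by
          rw [hc.eq]
      _ = _ := by group

lemma SL_apply (p q : L) (hp : p ^ 7 = 1) (hq : q ^ 7 = 1) (hpq : Commute p q) (g : SS) :
    SL p q hp hq hpq g = (p ^ 5) ^ (g : BSG).k * (q ^ 5) ^ ((g : BSG).u.2.2).val := rfl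

lemma SL_sig (p q : L) (hp : p ^ 7 = 1) (hq : q ^ 7 = 1) (hpq : Commute p q)
    (n : Multiplicative ℤ) (hn : sig n ∈ SS) :
    SL p q hp hq hpq ⟨sig n, hn⟩ = (p ^ 5) ^ (Multiplicative.toAdd n) := by
  simp [SL_apply]

lemma SL_eps (p q : L) (hp : p ^ 7 = 1) (hq : q ^ 7 = 1) (hpq : Commute p q)
    (n : Multiplicative ℤ) (hn : eps n ∈ SS) :
    SL p q hp hq hpq ⟨eps n, hn⟩ = (q ^ 5) ^ (Multiplicative.toAdd n) := by
  have hq5 : (q ^ 5) ^ 7 = 1 := by rw [← pow_mul, mul_comm, pow_mul, hq, one_pow]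
  rw [SL_apply]
  simp only [eps_k, zpow_zero, one_mul, eps_u, Prod.snd_intCast]
  exact pow_val_intCast hq5 _

/-- The homomorphism on the first sub-amalgam. -/
def F1 (p q r : L) (hp : p ^ 7 = 1) (hq : q ^ 7 = 1) (hr : r ^ 7 = 1) (hpq : Commute p q)
    (hqr : Commute q r) : AA' →* L :=
  PushoutI.lift (fun i => if i then SL p q hp hq hpq else SL q r hq hr hqr)
    ((zpowersHom L (q ^ 5)).comp H3.subtype) (by
      intro i
      ext n
      cases i
      · simp only [Bool.false_eq_true, if_false, MonoidHom.comp_apply, Subgroup.coe_subtype]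
        exact SL_sig q r hq hr hqr n _
      · simp only [if_true, MonoidHom.comp_apply, Subgroup.coe_subtype]
        exact SL_eps p q hp hq hpq n _)

lemma F1_true (p q r : L) (hp : p ^ 7 = 1) (hq : q ^ 7 = 1) (hr : r ^ 7 = 1) (hpq : Commute p q)
    (hqr : Commute q r) (g : SS) :
    F1 p q r hp hq hr hpq hqr (PushoutI.of true g) = SL p q hp hq hpq g := by
  simp [F1]

lemma F1_false (p q r : L) (hp : p ^ 7 = 1) (hq : q ^ 7 = 1) (hr : r ^ 7 = 1) (hpq : Commute p q)
    (hqr : Commute q r) (g : SS) :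
    F1 p q r hp hq hr hpq hqr (PushoutI.of false g) = SL q r hq hr hqr g := by
  simp [F1]

/-- the identification of the sub-amalgam with its image -/
noncomputable def e1 : AA' ≃* j10.range := MonoidHom.ofInjective j10_injective

/-- the elements of the factors, in the plain type -/
def ofA (i : Bool) (g : BSG) : A0 := toA0 (PushoutI.of i g)

lemma j10_of (i : Bool) (g : SS) : j10 (PushoutI.of i g) = ofA i g := by
  rw [j10_apply, jmap_of]; rfl

lemma κ0_of (i : Bool) (n : Multiplicative ℤ) :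
    κ0 (CoprodI.of (i := i) n) = ofA i (τ1 i n) := by
  rw [κ0_apply, κ_of]; rfl

lemma ofA_mul (i : Bool) (g h : BSG) : ofA i (g * h) = ofA i g * ofA i h := by
  simp [ofA]

lemma ofA_inv (i : Bool) (g : BSG) : ofA i (g⁻¹) = (ofA i g)⁻¹ := by
  simp [ofA]

lemma ofA_pow (i : Bool) (g : BSG) (n : ℕ) : ofA i (g ^ n) = (ofA i g) ^ n := by
  simp [ofA]

/-- The homomorphism on the image of the first sub-amalgam. -/
noncomputable def F1r (p q r : L) (hp : p ^ 7 = 1) (hq : q ^ 7 = 1) (hr : r ^ 7 = 1)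
    (hpq : Commute p q) (hqr : Commute q r) : j10.range →* L :=
  (F1 p q r hp hq hr hpq hqr).comp e1.symm.toMonoidHom

lemma F1r_apply (p q r : L) (hp : p ^ 7 = 1) (hq : q ^ 7 = 1) (hr : r ^ 7 = 1)
    (hpq : Commute p q) (hqr : Commute q r) (x : AA') (y : A0) (hy : y ∈ j10.range)
    (hxy : j10 x = y) :
    F1r p q r hp hq hr hpq hqr ⟨y, hy⟩ = F1 p q r hp hq hr hpq hqr x := by
  subst hxy
  have : e1.symm ⟨j10 x, hy⟩ = x := by
    rw [MulEquiv.symm_apply_eq]
    rfl
  simp only [F1r, MonoidHom.comp_apply, MulEquiv.toMonoidHom_eq_coe, MonoidHom.coe_coe]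
  rw [this]

lemma ofA_mem (i : Bool) {g : BSG} (hg : g ∈ SS) : ofA i g ∈ j10.range :=
  ⟨PushoutI.of i ⟨g, hg⟩, j10_of i ⟨g, hg⟩⟩

lemma F1r_of (p q r : L) (hp : p ^ 7 = 1) (hq : q ^ 7 = 1) (hr : r ^ 7 = 1)
    (hpq : Commute p q) (hqr : Commute q r) (i : Bool) (g : BSG) (hg : g ∈ SS)
    (hy : ofA i g ∈ j10.range) :
    F1r p q r hp hq hr hpq hqr ⟨ofA i g, hy⟩ =
      F1 p q r hp hq hr hpq hqr (PushoutI.of i ⟨g, hg⟩) :=
  F1r_apply p q r hp hq hr hpq hqr _ _ hy (j10_of i ⟨g, hg⟩)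

/-- agreement on the outer free group -/
lemma F1r_agree (p q r s : L) (hp : p ^ 7 = 1) (hq : q ^ 7 = 1) (hr : r ^ 7 = 1) (hs : s ^ 7 = 1)
    (hpq : Commute p q) (hqr : Commute q r) (hrs : Commute r s) (hsp : Commute s p) :
    (F1r r s p hr hs hp hrs hsp).comp (φ2' false) = (F1r p q r hp hq hr hpq hqr).comp (φ2' true) := by
  -- the cubing map onto `C3`
  let νr : CC →* C3 := ν.rangeRestrict
  have hνr : Surjective νr := ν.rangeRestrict_surjective
  rw [← MonoidHom.cancel_right hνr]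
  apply CoprodI.ext_hom
  intro i
  apply MonoidHom.ext
  intro n
  simp only [MonoidHom.comp_apply]
  have hmem : ∀ k : Bool, τ1 k (n ^ 3) ∈ SS := fun k => (τ1_mem_SS k _).2 (cube_mem_H3 n)
  have hT : φ2' true (νr (CoprodI.of (i := i) n)) =
      ⟨ofA i (τ1 i (n ^ 3)), ofA_mem i (hmem i)⟩ := by
    apply Subtype.ext
    rw [subφ_coe]
    change κ0 (ν (CoprodI.of (i := i) n)) = _
    rw [ν_of, κ0_of]
  have hF : φ2' false (νr (CoprodI.of (i := i) n)) =
      ⟨ofA (!i) (τ1 (!i) (n ^ 3)), ofA_mem (!i) (hmem (!i))⟩ := by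
    apply Subtype.ext
    rw [subφ_coe]
    change κ0 (swapC (ν (CoprodI.of (i := i) n))) = _
    rw [ν_of, swapC_of, κ0_of]
  rw [hT, hF, F1r_of _ _ _ _ _ _ _ _ _ _ (hmem (!i)), F1r_of _ _ _ _ _ _ _ _ _ _ (hmem i)]
  cases i
  · simp only [Bool.not_false]
    rw [F1_true, F1_false]
    exact (SL_sig r s hr hs hrs _ _).trans (SL_eps q r hq hr hqr _ _).symm
  · simp only [Bool.not_true]
    rw [F1_true, F1_false]
    exact (SL_eps s p hs hp hsp _ _).trans (SL_sig p q hp hq hpq _ _).symm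

/-- The homomorphism on the big sub-amalgam. -/
noncomputable def F2 (p q r s : L) (hp : p ^ 7 = 1) (hq : q ^ 7 = 1) (hr : r ^ 7 = 1)
    (hs : s ^ 7 = 1) (hpq : Commute p q) (hqr : Commute q r) (hrs : Commute r s)
    (hsp : Commute s p) : HH' →* L :=
  PushoutI.lift (fun i => if i then F1r p q r hp hq hr hpq hqr else F1r r s p hr hs hp hrs hsp)
    ((F1r p q r hp hq hr hpq hqr).comp (φ2' true)) (by
      intro i
      cases i
      · exact F1r_agree p q r s hp hq hr hs hpq hqr hrs hsp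
      · rfl)

lemma F2_true (p q r s : L) (hp : p ^ 7 = 1) (hq : q ^ 7 = 1) (hr : r ^ 7 = 1)
    (hs : s ^ 7 = 1) (hpq : Commute p q) (hqr : Commute q r) (hrs : Commute r s)
    (hsp : Commute s p) (g : j10.range) :
    F2 p q r s hp hq hr hs hpq hqr hrs hsp (PushoutI.of true g) = F1r p q r hp hq hr hpq hqr g := by
  simp [F2]

lemma F2_false (p q r s : L) (hp : p ^ 7 = 1) (hq : q ^ 7 = 1) (hr : r ^ 7 = 1)
    (hs : s ^ 7 = 1) (hpq : Commute p q) (hqr : Commute q r) (hrs : Commute r s)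
    (hsp : Commute s p) (g : j10.range) :
    F2 p q r s hp hq hr hs hpq hqr hrs hsp (PushoutI.of false g) = F1r r s p hr hs hp hrs hsp g := by
  simp [F2]

end HomSS

/-- Higman's group -/
abbrev HigmanRels : Set (FreeGroup (Fin 4)) := Set.range (fun i : Fin 4 =>
        (FreeGroup.of (i + 1))⁻¹ * FreeGroup.of i * FreeGroup.of (i + 1) * (FreeGroup.of i ^ 2)⁻¹)

/-- Higman's group -/
abbrev Higman := PresentedGroup HigmanRels

/-- the generator of the infinite cyclic group -/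
abbrev z1 : Multiplicative ℤ := Multiplicative.ofAdd 1

lemma bs_rel : (sig z1)⁻¹ * eps z1 * sig z1 = eps z1 ^ 2 := by
  apply BSG.ext
  · rw [pow_two]
    simp only [BSG.mul_u, BSG.inv_u, BSG.inv_k, BSG.mul_k, sig_u, sig_k, eps_u, eps_k, toAdd_ofAdd,
      mul_zero, neg_zero, zero_add, neg_neg, zpow_one, add_zero, zpow_zero, Units.val_one, one_mul]
    refine Prod.ext ?_ (Prod.ext ?_ ?_)
    · norm_num [two]
    · norm_num [two]
    · norm_num [two]
  · rw [pow_two]; simp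

/-- elements of the big amalgam -/
def ofH (i k : Bool) (g : BSG) : HH := PushoutI.of i (ofA k g)

lemma ofH_mul (i k : Bool) (g h : BSG) : ofH i k (g * h) = ofH i k g * ofH i k h := by
  simp [ofH, ofA_mul]

lemma ofH_inv (i k : Bool) (g : BSG) : ofH i k (g⁻¹) = (ofH i k g)⁻¹ := by
  simp [ofH, ofA_inv]

lemma ofH_pow (i k : Bool) (g : BSG) (n : ℕ) : ofH i k (g ^ n) = (ofH i k g) ^ n := by
  simp [ofH, ofA_pow]

/-- images of the generators -/
def hgen (i : Fin 4) : HH :=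
  if i = 1 then ofH true true (sig z1)
  else if i = 0 then ofH true true (eps z1)
  else if i = 3 then ofH true false (eps z1)
  else ofH false true (eps z1)

lemma hgen_one : hgen 1 = ofH true true (sig z1) := rfl
lemma hgen_zero : hgen 0 = ofH true true (eps z1) := rfl
lemma hgen_three : hgen 3 = ofH true false (eps z1) := rfl
lemma hgen_two : hgen 2 = ofH false true (eps z1) := rfl

lemma middle (n : Multiplicative ℤ) : ofA true (eps n) = ofA false (sig n) := by
  have h1 := PushoutI.of_apply_eq_base φ1 true n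
  have h2 := PushoutI.of_apply_eq_base φ1 false n
  exact congrArg toA0 (h1.trans h2.symm)

lemma outer (c : CC) : (PushoutI.of true (κ0 c) : HH) = PushoutI.of false (κ0 (swapC c)) := by
  have h1 := PushoutI.of_apply_eq_base φ2 true c
  have h2 := PushoutI.of_apply_eq_base φ2 false c
  exact h1.trans h2.symm

lemma outer_true (n : Multiplicative ℤ) : ofH true true (sig n) = ofH false false (eps n) := by
  have h := outer (CoprodI.of (i := true) n)
  rw [swapC_of, κ0_of, κ0_of] at h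
  exact h

lemma outer_false (n : Multiplicative ℤ) : ofH true false (eps n) = ofH false true (sig n) := by
  have h := outer (CoprodI.of (i := false) n)
  rw [swapC_of, κ0_of, κ0_of] at h
  exact h

lemma middleH (i : Bool) (n : Multiplicative ℤ) : ofH i true (eps n) = ofH i false (sig n) := by
  rw [ofH, middle]; rfl

lemma hgen_rel (i : Fin 4) : (hgen (i + 1))⁻¹ * hgen i * hgen (i + 1) = hgen i ^ 2 := by
  have key : ∀ i k : Bool, (ofH i k (sig z1))⁻¹ * ofH i k (eps z1) * ofH i k (sig z1) =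
      ofH i k (eps z1) ^ 2 := by
    intro i k
    rw [← ofH_inv, ← ofH_mul, ← ofH_mul, ← ofH_pow, bs_rel]
  fin_cases i
  · -- i = 0 : b and a
    change (hgen 1)⁻¹ * hgen 0 * hgen 1 = hgen 0 ^ 2
    exact key true true
  · change (hgen 2)⁻¹ * hgen 1 * hgen 2 = hgen 1 ^ 2
    rw [hgen_one, hgen_two, outer_true, middleH]
    exact key false false
  · change (hgen 3)⁻¹ * hgen 2 * hgen 3 = hgen 2 ^ 2
    rw [hgen_three, hgen_two, outer_false]
    exact key false true
  · change (hgen 0)⁻¹ * hgen 3 * hgen 0 = hgen 3 ^ 2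
    rw [hgen_three, hgen_zero, middleH]
    exact key true false

/-- the big amalgam, as a plain type -/
def H0 : Type := PushoutI φ2

instance : Group H0 := inferInstanceAs (Group (PushoutI φ2))

/-- the sub-amalgam, as a plain type -/
def H0' : Type := PushoutI φ2'

noncomputable instance : Group H0' := inferInstanceAs (Group (PushoutI φ2'))

/-- the identity map -/
def toH0 : HH →* H0 where
  toFun x := x
  map_one' := rfl
  map_mul' _ _ := rfl

/-- the identity map -/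
noncomputable def fromH0' : H0' →* HH' where
  toFun x := x
  map_one' := rfl
  map_mul' _ _ := rfl

/-- the identity map -/
noncomputable def toH0' : HH' →* H0' where
  toFun x := x
  map_one' := rfl
  map_mul' _ _ := rfl

lemma fromH0'_toH0' (x : HH') : fromH0' (toH0' x) = x := rfl

/-- the inclusion -/
noncomputable def j20 : H0' →* H0 := (toH0.comp j2).comp fromH0'

lemma j20_injective : Injective j20 := fun _ _ h => j2_injective h

lemma j20_apply (x : HH') : j20 (toH0' x) = toH0 (j2 x) := rfl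

/-- the homomorphism from Higman's group -/
def eta : Higman →* H0 := PresentedGroup.toGroup (f := fun i => toH0 (hgen i)) (by
  rintro _ ⟨i, rfl⟩
  simp only [map_mul, map_inv, map_pow, FreeGroup.lift_apply_of]
  rw [← map_inv, ← map_mul, ← map_mul, ← map_pow, hgen_rel, mul_inv_cancel])

@[simp] lemma eta_of (i : Fin 4) : eta (PresentedGroup.of i) = toH0 (hgen i) := by
  simp [eta]

/-- homomorphisms on the preimage of an embedded group -/
lemma exists_hom_comap {X Y Z L : Type*} [Group X] [Group Y] [Group Z] [Group L] (η : X →* Y)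
    (j : Z →* Y) (hj : Injective j) (F : Z →* L) :
    ∃ G : (j.range.comap η) →* L, ∀ (x : X) (hx : x ∈ j.range.comap η) (z : Z), j z = η x →
      G ⟨x, hx⟩ = F z := by
  let e : Z ≃* j.range := MonoidHom.ofInjective hj
  refine ⟨F.comp (e.symm.toMonoidHom.comp (η.subgroupComap j.range)), ?_⟩
  intro x hx z hz
  have h1 : e.symm (η.subgroupComap j.range ⟨x, hx⟩) = z := by
    rw [MulEquiv.symm_apply_eq]
    apply Subtype.ext
    exact hz.symm
  simp only [MonoidHom.comp_apply, MulEquiv.toMonoidHom_eq_coe, MonoidHom.coe_coe]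
  rw [h1]

lemma cube_sig : sig z1 ^ 3 ∈ SS := by
  rw [← map_pow, sig_mem_SS]; exact cube_mem_H3 _

lemma cube_eps : eps z1 ^ 3 ∈ SS := by
  rw [← map_pow, eps_mem_SS]; exact cube_mem_H3 _

/-- elements of the sub-amalgam -/
noncomputable def ofH' (i k : Bool) (g : BSG) (hg : g ∈ SS) : H0' :=
  toH0' (PushoutI.of (φ := φ2') i ⟨ofA k g, ofA_mem k hg⟩)

lemma j20_ofH' (i k : Bool) (g : BSG) (hg : g ∈ SS) :
    j20 (ofH' i k g hg) = toH0 (ofH i k g) := by
  rw [ofH', j20_apply, jmap_of]; rfl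

section

variable {L : Type*} [Group L] (p q r s : L) (hp : p ^ 7 = 1) (hq : q ^ 7 = 1)
    (hr : r ^ 7 = 1) (hs : s ^ 7 = 1) (hpq : Commute p q) (hqr : Commute q r) (hrs : Commute r s)
    (hsp : Commute s p)

lemma pow15 {x : L} (hx : x ^ 7 = 1) : (x ^ 5) ^ (3 : ℤ) = x := by
  have : (x ^ 5) ^ (3 : ℤ) = x ^ 15 := by
    rw [show (3 : ℤ) = ((3 : ℕ) : ℤ) from rfl, zpow_natCast, ← pow_mul]
  rw [this, show 15 = 7 + 7 + 1 from rfl, pow_add, pow_add, hx, one_mul, one_mul, pow_one]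

include hp hq hpq in
lemma SL_cube_sig (h : sig z1 ^ 3 ∈ SS) : SL p q hp hq hpq ⟨sig z1 ^ 3, h⟩ = p := by
  have := SL_sig p q hp hq hpq (z1 ^ 3) (sig_mem_SS.2 (cube_mem_H3 _))
  simp only [map_pow] at this
  rw [this, toAdd_pow]
  simpa using pow15 hp

include hp hq hpq in
lemma SL_cube_eps (h : eps z1 ^ 3 ∈ SS) : SL p q hp hq hpq ⟨eps z1 ^ 3, h⟩ = q := by
  have := SL_eps p q hp hq hpq (z1 ^ 3) (eps_mem_SS.2 (cube_mem_H3 _))
  simp only [map_pow] at this
  rw [this, toAdd_pow]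
  simpa using pow15 hq

lemma F2_tt (g : BSG) (hg : g ∈ SS) :
    F2 p q r s hp hq hr hs hpq hqr hrs hsp (fromH0' (ofH' true true g hg)) =
      SL p q hp hq hpq ⟨g, hg⟩ := by
  rw [ofH', fromH0'_toH0', F2_true, F1r_of _ _ _ _ _ _ _ _ _ _ hg, F1_true]

lemma F2_tf (g : BSG) (hg : g ∈ SS) :
    F2 p q r s hp hq hr hs hpq hqr hrs hsp (fromH0' (ofH' true false g hg)) =
      SL q r hq hr hqr ⟨g, hg⟩ := by
  rw [ofH', fromH0'_toH0', F2_true, F1r_of _ _ _ _ _ _ _ _ _ _ hg, F1_false]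

lemma F2_ft (g : BSG) (hg : g ∈ SS) :
    F2 p q r s hp hq hr hs hpq hqr hrs hsp (fromH0' (ofH' false true g hg)) =
      SL r s hr hs hrs ⟨g, hg⟩ := by
  rw [ofH', fromH0'_toH0', F2_false, F1r_of _ _ _ _ _ _ _ _ _ _ hg, F1_true]

include hp hq hr hs hpq hqr hrs hsp in
/-- The main result of the amalgam analysis: the subgroup generated by the cubes of the generators
of Higman's group admits homomorphisms with prescribed values. -/
theorem exists_hom_cubes :
    ∃ (R : Subgroup Higman) (F : R →* L) (ha : PresentedGroup.of 1 ^ 3 ∈ R)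
      (hb : PresentedGroup.of 0 ^ 3 ∈ R) (hc : PresentedGroup.of 3 ^ 3 ∈ R)
      (hd : PresentedGroup.of 2 ^ 3 ∈ R),
      F ⟨_, ha⟩ = p ∧ F ⟨_, hb⟩ = q ∧ F ⟨_, hc⟩ = r ∧ F ⟨_, hd⟩ = s := by
  obtain ⟨G, hG⟩ := exists_hom_comap eta j20 j20_injective
    ((F2 p q r s hp hq hr hs hpq hqr hrs hsp).comp fromH0')
  have ha : j20 (ofH' true true (sig z1 ^ 3) cube_sig) = eta ((PresentedGroup.of 1) ^ 3) := by
    rw [j20_ofH', map_pow, eta_of, hgen_one, ofH_pow, map_pow]
  have hb : j20 (ofH' true true (eps z1 ^ 3) cube_eps) = eta ((PresentedGroup.of 0) ^ 3) := by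
    rw [j20_ofH', map_pow, eta_of, hgen_zero, ofH_pow, map_pow]
  have hc : j20 (ofH' true false (eps z1 ^ 3) cube_eps) = eta ((PresentedGroup.of 3) ^ 3) := by
    rw [j20_ofH', map_pow, eta_of, hgen_three, ofH_pow, map_pow]
  have hd : j20 (ofH' false true (eps z1 ^ 3) cube_eps) = eta ((PresentedGroup.of 2) ^ 3) := by
    rw [j20_ofH', map_pow, eta_of, hgen_two, ofH_pow, map_pow]
  have mem : ∀ {x : Higman} {z : H0'}, j20 z = eta x → x ∈ j20.range.comap eta := by
    intro x z h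
    exact Subgroup.mem_comap.2 ⟨z, h⟩
  refine ⟨j20.range.comap eta, G, mem ha, mem hb, mem hc, mem hd, ?_, ?_, ?_, ?_⟩
  · rw [hG _ _ _ ha, MonoidHom.comp_apply, F2_tt, SL_cube_sig]
  · rw [hG _ _ _ hb, MonoidHom.comp_apply, F2_tt, SL_cube_eps]
  · rw [hG _ _ _ hc, MonoidHom.comp_apply, F2_tf, SL_cube_eps]
  · rw [hG _ _ _ hd, MonoidHom.comp_apply, F2_ft, SL_cube_eps]

end

end Pool.Agent.H687R3
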