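import Mathlib
import Pool.Agent.H687R3.Level2
import Pool.Agent.H687R3.Ident3
import Pool.Agent.H687R3.Detect

/-!
# Higman's group is not coherent
-/

namespace Pool.Agent.H687R3

open Subgroup

noncomputable section

/-- the cyclic group of order seven -/
abbrev Q7 := Multiplicative (ZMod 7)

/-- a wreath product -/
abbrev Wr := RegularWreathProduct LL Q7

/-- the generator -/
def g7 : Q7 := Multiplicative.ofAdd 1

/-- first element of order seven -/
def a0 : Wr := ⟨1, g7⟩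

/-- conjugating element -/
def dv (s : LL) : Wr := ⟨fun x => if x = g7⁻¹ then s else if x = g7⁻¹ * g7⁻¹ then lam⁻¹ else 1, 1⟩

/-- second element of order seven -/
def c0 (s : LL) : Wr := (dv s)⁻¹ * a0 * dv s

lemma g7_pow : g7 ^ 7 = 1 := by decide

lemma a0_pow (n : ℕ) : a0 ^ n = ⟨1, g7 ^ n⟩ := by
  induction n with
  | zero => rfl
  | succ n ih =>
    rw [pow_succ, ih]
    ext x
    · simp [a0]
    · simp [a0]
    · simp [a0, pow_succ]

lemma a0_pow7 : a0 ^ 7 = 1 := by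
  rw [a0_pow, g7_pow]; rfl

lemma c0_pow (s : LL) (n : ℕ) : c0 s ^ n = (dv s)⁻¹ * a0 ^ n * dv s := by
  have := conj_pow (i := n) (a := (dv s)⁻¹) (b := a0)
  rw [inv_inv] at this
  exact this

lemma c0_pow7 (s : LL) : c0 s ^ 7 = 1 := by
  rw [c0_pow, a0_pow7]; simp

lemma dv_one (s : LL) : (dv s).left 1 = 1 := by
  have h1 : (1 : Q7) ≠ g7⁻¹ := by decide
  have h2 : (1 : Q7) ≠ g7⁻¹ * g7⁻¹ := by decide
  simp only [dv, if_neg h1, if_neg h2]

lemma dv_g (s : LL) : (dv s).left (g7⁻¹) = s := by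
  simp only [dv, if_true]

lemma dv_gg (s : LL) : (dv s).left (g7⁻¹ * g7⁻¹) = lam⁻¹ := by
  have h1 : (g7⁻¹ * g7⁻¹ : Q7) ≠ g7⁻¹ := by decide
  simp only [dv, if_neg h1, if_true]

/-- elements of the base with their first coordinate -/
def Bs (x : Wr) (l : LL) : Prop := x.right = 1 ∧ x.left 1 = l

lemma Bs.mul {x y : Wr} {l m : LL} (hx : Bs x l) (hy : Bs y m) : Bs (x * y) (l * m) := by
  refine ⟨by simp [hx.1, hy.1], ?_⟩
  simp [hx.1, hx.2, hy.2]

lemma Bs.inv {x : Wr} {l : LL} (hx : Bs x l) : Bs x⁻¹ l⁻¹ := by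
  refine ⟨by simp [hx.1], ?_⟩
  simp [hx.1, hx.2]

lemma Bs_one : Bs 1 1 := ⟨rfl, rfl⟩

lemma Bs_general (s : LL) (n : ℕ) :
    Bs (a0 ^ n * (c0 s ^ n)⁻¹) (((dv s).left ((g7 ^ n)⁻¹))⁻¹) := by
  rw [c0_pow, a0_pow]
  constructor
  · simp [dv]
  · have h1 : (dv s).right = 1 := rfl
    simp only [RegularWreathProduct.mul_left, RegularWreathProduct.inv_left, mul_inv_rev,
      inv_inv, Pi.mul_apply, Pi.one_apply, Pi.inv_apply, RegularWreathProduct.mul_right,
      RegularWreathProduct.inv_right, h1, one_mul, mul_one, inv_one, mul_inv_cancel,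
      inv_mul_cancel_right, dv_one]

lemma Bs_x (s : LL) : Bs (a0 * (c0 s)⁻¹) s⁻¹ := by
  have := Bs_general s 1
  rw [pow_one, pow_one, pow_one, dv_g] at this
  exact this

lemma Bs_y (s : LL) : Bs (a0 ^ 2 * (c0 s ^ 2)⁻¹) lam := by
  have := Bs_general s 2
  have h : (g7 ^ 2)⁻¹ = g7⁻¹ * g7⁻¹ := by rw [pow_two, mul_inv_rev]
  rw [h, dv_gg, inv_inv] at this
  exact this

/-- the four generators in Higman's group -/
abbrev hA : Higman := PresentedGroup.of 1 ^ 3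
/-- the four generators in Higman's group -/
abbrev hB : Higman := PresentedGroup.of 0 ^ 3
/-- the four generators in Higman's group -/
abbrev hC : Higman := PresentedGroup.of 3 ^ 3
/-- the four generators in Higman's group -/
abbrev hD : Higman := PresentedGroup.of 2 ^ 3

lemma hig_rel (i : Fin 4) : (PresentedGroup.of (i + 1) : Higman)⁻¹ * PresentedGroup.of i *
    PresentedGroup.of (i + 1) = PresentedGroup.of i ^ 2 := by
  have h : (PresentedGroup.mk HigmanRels) ((FreeGroup.of (i + 1))⁻¹ * FreeGroup.of i *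
      FreeGroup.of (i + 1) * (FreeGroup.of i ^ 2)⁻¹) = 1 :=
    PresentedGroup.one_of_mem ⟨i, rfl⟩
  rw [map_mul, map_inv, mul_inv_eq_one, map_mul, map_mul, map_inv, map_pow] at h
  exact h

lemma cube_rel {Γ : Type*} [Group Γ] {p q : Γ} (h : p⁻¹ * q * p = q ^ 2) :
    (p ^ 3)⁻¹ * q ^ 3 * p ^ 3 = (q ^ 3) ^ 8 := by
  have h2 : ∀ n : ℕ, p⁻¹ * q ^ n * p = q ^ (2 * n) := by
    intro n
    have := conj_pow (i := n) (a := p⁻¹) (b := q)
    rw [inv_inv] at this
    rw [← this, h, ← pow_mul]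
  have h3 : (p ^ 3)⁻¹ * q ^ 3 * p ^ 3 = p⁻¹ * (p⁻¹ * (p⁻¹ * q ^ 3 * p) * p) * p := by
    rw [pow_succ, pow_two]
    simp only [mul_inv_rev, mul_assoc]
  rw [h3, h2, h2, h2, ← pow_mul]

lemma rAB : hA⁻¹ * hB * hA = hB ^ 8 := cube_rel (hig_rel 0)
lemma rBC : hB⁻¹ * hC * hB = hC ^ 8 := cube_rel (hig_rel 3)
lemma rCD : hC⁻¹ * hD * hC = hD ^ 8 := cube_rel (hig_rel 2)
lemma rDA : hD⁻¹ * hA * hD = hA ^ 8 := cube_rel (hig_rel 1)

/-- the subgroup -/
abbrev Kh : Subgroup Higman := KK hA hB hC hD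

/-- its normal subgroup -/
abbrev Mh : Subgroup Higman := MM hA hB hC hD

lemma Kh_fg : Kh.FG := by
  refine ⟨Set.Finite.toFinset (s := gens hA hB hC hD) ?_, ?_⟩
  · unfold gens
    exact Set.toFinite _
  · simp [KK]

lemma comm_l (x y : Wr) : Commute ((x, 1) : Wr × Wr) ((1, y) : Wr × Wr) := by
  simp [Commute, SemiconjBy]

lemma comm_r (x y : Wr) : Commute ((1, y) : Wr × Wr) ((x, 1) : Wr × Wr) := (comm_l x y).symm

/-- the homomorphism on the subgroup -/
lemma exists_Theta : ∃ Θ : Kh →* LL × LL, (∀ g, (Θ g).1.k = (Θ g).2.k) ∧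
    Θ ⟨_, eu_mem hA hB hC hD⟩ = (tt, tt) ∧ Θ ⟨_, ey_mem hA hB hC hD⟩ = (lam, 1) ∧
    Θ ⟨_, ew_mem hA hB hC hD⟩ = (1, lam) ∧
    ∀ (s : Higman) (hs : s ∈ locs hA hB hC hD) (hs' : s ∈ Kh), Θ ⟨s, hs'⟩ = 1 := by
  obtain ⟨R, F, ha, hb, hc, hd, Fa, Fb, Fc, Fd⟩ := exists_hom_cubes (L := Wr × Wr)
    (a0, 1) (1, a0) (c0 tt⁻¹, 1) (1, c0 tt)
    (by simp [a0_pow7, Prod.ext_iff]) (by simp [a0_pow7, Prod.ext_iff])
    (by simp [c0_pow7, Prod.ext_iff]) (by simp [c0_pow7, Prod.ext_iff])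
    (comm_l _ _) (comm_r _ _) (comm_l _ _) (comm_r _ _)
  -- the values on the generators
  let V : Higman → LL → LL → Prop := fun g l m =>
    ∃ r : R, (r : Higman) = g ∧ Bs (F r).1 l ∧ Bs (F r).2 m
  have vmul : ∀ {g g' : Higman} {l m l' m' : LL}, V g l m → V g' l' m' →
      V (g * g') (l * l') (m * m') := by
    rintro g g' l m l' m' ⟨r, rfl, h1, h2⟩ ⟨r', rfl, h1', h2'⟩
    refine ⟨r * r', rfl, ?_, ?_⟩
    · rw [map_mul]; exact h1.mul h1'
    · rw [map_mul]; exact h2.mul h2'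
  have vinv : ∀ {g : Higman} {l m : LL}, V g l m → V g⁻¹ l⁻¹ m⁻¹ := by
    rintro g l m ⟨r, rfl, h1, h2⟩
    refine ⟨r⁻¹, rfl, ?_, ?_⟩
    · rw [map_inv]; exact h1.inv
    · rw [map_inv]; exact h2.inv
  have vone : V 1 1 1 := ⟨1, rfl, by rw [map_one]; exact Bs_one, by rw [map_one]; exact Bs_one⟩
  have vx : V (ex hA hC) tt 1 := by
    refine ⟨⟨hA, ha⟩ * ⟨hC, hc⟩⁻¹, rfl, ?_, ?_⟩
    · rw [map_mul, map_inv, Fa, Fc]
      have := Bs_x tt⁻¹
      rw [inv_inv] at this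
      exact this
    · rw [map_mul, map_inv, Fa, Fc]
      simpa using Bs_one
  have vz : V (ez hB hD) 1 tt⁻¹ := by
    refine ⟨⟨hB, hb⟩ * ⟨hD, hd⟩⁻¹, rfl, ?_, ?_⟩
    · rw [map_mul, map_inv, Fb, Fd]
      simpa using Bs_one
    · rw [map_mul, map_inv, Fb, Fd]
      exact Bs_x tt
  have vy : V (ey hA hC) lam 1 := by
    refine ⟨⟨hA, ha⟩ ^ 2 * (⟨hC, hc⟩ ^ 2)⁻¹, rfl, ?_, ?_⟩
    · rw [map_mul, map_inv, map_pow, map_pow, Fa, Fc]
      exact Bs_y tt⁻¹
    · rw [map_mul, map_inv, map_pow, map_pow, Fa, Fc]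
      simpa using Bs_one
  have vw : V (ew hB hD) 1 lam := by
    refine ⟨⟨hB, hb⟩ ^ 2 * (⟨hD, hd⟩ ^ 2)⁻¹, rfl, ?_, ?_⟩
    · rw [map_mul, map_inv, map_pow, map_pow, Fb, Fd]
      simpa using Bs_one
    · rw [map_mul, map_inv, map_pow, map_pow, Fb, Fd]
      exact Bs_y tt
  have vu : V (eu hA hB hC hD) tt tt := by
    have := vmul vx (vinv vz)
    simpa [eu] using this
  have vu' : V (eu' hA hB hC hD) tt⁻¹ tt⁻¹ := by
    have := vmul (vinv vx) vz
    simpa [eu'] using this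
  have vlocs : ∀ s ∈ locs hA hB hC hD, V s 1 1 := by
    intro s hs
    simp only [locs, Set.mem_insert_iff, Set.mem_singleton_iff] at hs
    rcases hs with rfl | rfl | rfl | rfl
    · refine ⟨⟨hA, ha⟩ ^ 7, rfl, ?_, ?_⟩
      · rw [map_pow, Fa]; simpa [a0_pow7] using Bs_one
      · rw [map_pow, Fa]; simpa using Bs_one
    · refine ⟨⟨hB, hb⟩ ^ 7, rfl, ?_, ?_⟩
      · rw [map_pow, Fb]; simpa using Bs_one
      · rw [map_pow, Fb]; simpa [a0_pow7] using Bs_one
    · refine ⟨⟨hC, hc⟩ ^ 7, rfl, ?_, ?_⟩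
      · rw [map_pow, Fc]; simpa [c0_pow7] using Bs_one
      · rw [map_pow, Fc]; simpa using Bs_one
    · refine ⟨⟨hD, hd⟩ ^ 7, rfl, ?_, ?_⟩
      · rw [map_pow, Fd]; simpa using Bs_one
      · rw [map_pow, Fd]; simpa [c0_pow7] using Bs_one
  have vuniq : ∀ {g : Higman} {l m l' m' : LL}, V g l m → V g l' m' → l = l' ∧ m = m' := by
    rintro g l m l' m' ⟨r, rfl, h1, h2⟩ ⟨r', hr, h1', h2'⟩
    have : r' = r := Subtype.ext hr
    subst this
    exact ⟨h1.2.symm.trans h1'.2, h2.2.symm.trans h2'.2⟩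
  have vall : ∀ g ∈ Kh, ∃ l m : LL, l.k = m.k ∧ V g l m := by
    intro g hg
    unfold Kh KK at hg
    induction hg using closure_induction with
    | mem g hg =>
      simp only [gens, Set.mem_insert_iff, Set.mem_singleton_iff] at hg
      rcases hg with rfl | rfl | rfl | rfl | rfl | rfl | rfl | rfl
      · exact ⟨tt, tt, rfl, vu⟩
      · exact ⟨_, _, rfl, vu'⟩
      · exact ⟨lam, 1, rfl, vy⟩
      · exact ⟨1, lam, rfl, vw⟩
      · exact ⟨1, 1, rfl, vlocs _ (by simp [locs])⟩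
      · exact ⟨1, 1, rfl, vlocs _ (by simp [locs])⟩
      · exact ⟨1, 1, rfl, vlocs _ (by simp [locs])⟩
      · exact ⟨1, 1, rfl, vlocs _ (by simp [locs])⟩
    | one => exact ⟨1, 1, rfl, vone⟩
    | mul a b _ _ iha ihb =>
      obtain ⟨l, m, h1, h2⟩ := iha
      obtain ⟨l', m', h1', h2'⟩ := ihb
      exact ⟨_, _, by simp [h1, h1'], vmul h2 h2'⟩
    | inv a _ iha =>
      obtain ⟨l, m, h1, h2⟩ := iha
      exact ⟨_, _, by simp [h1], vinv h2⟩
  choose! L1 M1 hk hV using vall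
  let Θ : Kh →* LL × LL :=
    { toFun := fun g => (L1 g, M1 g)
      map_one' := by
        have := vuniq (hV 1 (one_mem _)) vone
        exact Prod.ext this.1 this.2
      map_mul' := by
        rintro ⟨g, hg⟩ ⟨g', hg'⟩
        have := vuniq (hV (g * g') (mul_mem hg hg')) (vmul (hV g hg) (hV g' hg'))
        exact Prod.ext this.1 this.2 }
  refine ⟨Θ, fun g => hk g g.2, ?_, ?_, ?_, ?_⟩
  · have := vuniq (hV _ (eu_mem hA hB hC hD)) vu
    exact Prod.ext this.1 this.2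
  · have := vuniq (hV _ (ey_mem hA hB hC hD)) vy
    exact Prod.ext this.1 this.2
  · have := vuniq (hV _ (ew_mem hA hB hC hD)) vw
    exact Prod.ext this.1 this.2
  · intro s hs hs'
    have := vuniq (hV s hs') (vlocs s hs)
    exact Prod.ext this.1 this.2

/-- the local elements as elements of the subgroup -/
def locK : Set Kh := {g | (g : Higman) ∈ locs hA hB hC hD}

lemma locK_finite : locK.Finite := by
  have h1 : (locs hA hB hC hD).Finite := by unfold locs; exact Set.toFinite _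
  exact h1.preimage (Subtype.val_injective.injOn)

lemma mem_normalClosure_locK {g : Kh} (hg : (g : Higman) ∈ Mh) : g ∈ normalClosure locK := by
  have key : ∀ x ∈ Mh, ∃ h : x ∈ Kh, (⟨x, h⟩ : Kh) ∈ normalClosure locK := by
    intro x hx
    unfold Mh MM at hx
    induction hx using closure_induction with
    | mem x hx =>
      obtain ⟨k, hk, s, hs, rfl⟩ := hx
      have hsK : s ∈ Kh := Subgroup.subset_closure (locs_subset_gens _ _ _ _ hs)
      refine ⟨mul_mem (mul_mem hk hsK) (inv_mem hk), ?_⟩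
      have h1 : (⟨s, hsK⟩ : Kh) ∈ normalClosure locK := subset_normalClosure hs
      exact (normalClosure_normal (s := locK)).conj_mem _ h1 ⟨k, hk⟩
    | one => exact ⟨one_mem _, one_mem _⟩
    | mul a b _ _ iha ihb =>
      obtain ⟨h1, h2⟩ := iha
      obtain ⟨h1', h2'⟩ := ihb
      exact ⟨mul_mem h1 h1', mul_mem h2 h2'⟩
    | inv a _ iha =>
      obtain ⟨h1, h2⟩ := iha
      exact ⟨inv_mem h1, inv_mem h2⟩
  obtain ⟨_, h2⟩ := key g hg
  exact h2

/-- The finitely generated subgroup of Higman's group is not finitely presented. -/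
theorem Kh_not_fp : ¬ Group.IsFinitelyPresented Kh := by
  intro hfp
  obtain ⟨Θ, hk, hu, hy, hw, hl⟩ := exists_Theta
  have hfp2 : Group.IsFinitelyPresented (Kh ⧸ normalClosure locK) :=
    Group.IsFinitelyPresented.quotient _ ⟨locK, locK_finite, rfl⟩
  have hker : normalClosure locK ≤ Θ.ker := by
    apply normalClosure_le_normal
    rintro ⟨s, hs'⟩ hs
    exact hl s hs hs'
  let Θ' : Kh ⧸ normalClosure locK →* LL × LL := QuotientGroup.lift _ Θ hker
  let U : Kh := ⟨_, eu_mem hA hB hC hD⟩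
  let Y : Kh := ⟨_, ey_mem hA hB hC hD⟩
  let W : Kh := ⟨_, ew_mem hA hB hC hD⟩
  refine not_finitelyPresented Θ' ?_ (U : Kh ⧸ normalClosure locK) (Y : Kh ⧸ normalClosure locK)
    (W : Kh ⧸ normalClosure locK) hu hy hw ?_ hfp2
  · intro g
    obtain ⟨g, rfl⟩ := QuotientGroup.mk_surjective g
    exact hk g
  · intro n
    have h1 : (Y * (U ^ n * W * (U ^ n)⁻¹) * Y⁻¹ * (U ^ n * W * (U ^ n)⁻¹)⁻¹ : Kh) ∈
        normalClosure locK := by
      apply mem_normalClosure_locK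
      have := comm_mem rAB rBC rCD rDA n
      simpa [U, Y, W] using this
    exact (QuotientGroup.eq_one_iff _).2 h1

end

end Pool.Agent.H687R3
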